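import Pool.Agent.H.MP_ac3185_nt.PlacesDefs

/-! Primes above a place. -/

set_option autoImplicit false

open CategoryTheory AlgebraicGeometry NumberField IsDedekindDomain
open scoped MonObj Pointwise

namespace Pool.Agent.H.MP_ac3185_nt

universe u

section defs

variable {K : Type u} [Field K] [NumberField K]

/-- The prime ideal `𝔓` of the ring of integers of an algebraic closure of `K` lies above `v`. -/
def Above (𝔓 : Ideal (𝓞 (AlgebraicClosure K))) (v : HeightOneSpectrum (𝓞 K)) : Prop :=
  𝔓.IsPrime ∧ 𝔓.comap (algebraMap (𝓞 K) (𝓞 (AlgebraicClosure K))) = v.asIdeal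

/-- The prime number `ℓ` is different from the residue characteristic of `v`. -/
def Away (ℓ : ℕ) (v : HeightOneSpectrum (𝓞 K)) : Prop := (ℓ : 𝓞 K) ∉ v.asIdeal

end defs

end Pool.Agent.H.MP_ac3185_nt
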