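import Pool.Agent.H.MP_ac3185_nt.Det

/-! Signs on a set with an action of a finite `2`-group; ranks of abelian groups. -/

set_option autoImplicit false

open scoped TensorProduct

namespace Pool.Agent.H.MP_ac3185_nt

theorem finprod_sign {P X : Type*} [Group P] [Finite P] (hP : IsPGroup 2 P) [MulAction P X]
    (w : X → ℤ) (hw : ∀ x, w x = 1 ∨ w x = -1) (hs : ∀ (s : P) x, w (s • x) = w x)
    (hf : ∀ x, (∀ s : P, s • x = x) → w x = 1) : ∏ᶠ x, w x = 1 := by
  classical
  by_cases hfin : (Function.mulSupport w).Finite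
  · let S : SubMulAction P X :=
      { carrier := Function.mulSupport w
        smul_mem' := fun s x hx => by
          show w (s • x) ≠ 1
          rw [hs]
          exact hx }
    have hS : Finite S := hfin
    have h1 := hP.card_modEq_card_fixedPoints (α := S)
    have h2 : IsEmpty (MulAction.fixedPoints P S) := by
      refine ⟨fun x => ?_⟩
      obtain ⟨⟨x, hx⟩, hx'⟩ := x
      apply hx
      exact hf x fun s => congrArg Subtype.val (hx' s)
    rw [Nat.card_of_isEmpty (α := MulAction.fixedPoints P S)] at h1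
    have h3 : Even (Nat.card S) := by
      rw [Nat.even_iff]
      exact h1
    rw [finprod_eq_prod_of_mulSupport_subset w (s := hfin.toFinset) (by simp)]
    have h4 : ∏ x ∈ hfin.toFinset, w x = ∏ x ∈ hfin.toFinset, (-1 : ℤ) := by
      refine Finset.prod_congr rfl fun x hx => ?_
      rw [Set.Finite.mem_toFinset] at hx
      exact (hw x).resolve_left hx
    rw [h4, Finset.prod_const, ← Set.ncard_eq_toFinset_card _ hfin]
    exact Even.neg_one_pow h3
  · exact finprod_of_infinite_mulSupport hfin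

theorem rank_odd {P : Type*} [Group P] [Finite P] (hP : IsPGroup 2 P) (c : P → P → ℤ)
    (hc : ∀ s t, c s t ≠ 0) {M : Type*} [AddCommGroup M] (Φ : P → M →+ M)
    (h1 : Φ 1 = AddMonoidHom.id M) (hΦ : ∀ s t, (Φ s).comp (Φ t) = c s t • Φ (s * t))
    (hodd : Odd (Module.finrank ℤ M)) : Splits ℚ c := by
  let Ψ : P → (ℚ ⊗[ℤ] M) →ₗ[ℚ] (ℚ ⊗[ℤ] M) := fun s => (Φ s).toIntLinearMap.baseChange ℚ
  refine det_split hP (F := ℚ) c (fun s t => Int.cast_ne_zero.2 (hc s t)) (W := ℚ ⊗[ℤ] M) ?_ Ψ
    ?_ ?_
  · rwa [(TensorProduct.isBaseChange ℤ M ℚ).finrank_eq]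
  · show (Φ 1).toIntLinearMap.baseChange ℚ = _
    rw [h1]
    exact LinearMap.baseChange_id
  · intro s t
    show ((Φ s).toIntLinearMap.baseChange ℚ).comp ((Φ t).toIntLinearMap.baseChange ℚ) =
      (c s t : ℚ) • (Φ (s * t)).toIntLinearMap.baseChange ℚ
    rw [← LinearMap.baseChange_comp]
    have h2 : (Φ s).toIntLinearMap.comp (Φ t).toIntLinearMap =
        c s t • (Φ (s * t)).toIntLinearMap := by
      ext x
      exact congrArg (fun f => f x) (hΦ s t)
    rw [h2, LinearMap.baseChange_smul, ← Int.cast_smul_eq_zsmul ℚ]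

theorem Splits.map {P : Type*} [Group P] {F E : Type*} [Field F] [Field E] (f : F →+* E)
    {c : P → P → ℤ} (h : Splits F c) : Splits E c := by
  obtain ⟨a, ha, hac⟩ := h
  refine ⟨fun s => f (a s), fun s => (map_ne_zero f).2 (ha s), fun s t => ?_⟩
  rw [← map_mul, hac, map_mul, map_intCast]

end Pool.Agent.H.MP_ac3185_nt
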