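import Mathlib

/-! The determinant trick: an odd dimensional projective representation of a finite `2`-group
splits its cocycle. -/

set_option autoImplicit false

namespace Pool.Agent.H.MP_ac3185_nt

/-- `c` is split over `F`: there are nonzero `a s` in `F` with `a s * a t = c s t * a (s * t)`. -/
def Splits {P : Type*} [Group P] (F : Type*) [Field F] (c : P → P → ℤ) : Prop :=
  ∃ a : P → F, (∀ s, a s ≠ 0) ∧ ∀ s t, a s * a t = (c s t : F) * a (s * t)

/-- Two prime numbers at which the cocycle does not split. -/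
def TwoPrimes {P : Type*} [Group P] (c : P → P → ℤ) : Prop :=
  ∃ (ℓ₁ ℓ₂ : ℕ) (_ : Fact ℓ₁.Prime) (_ : Fact ℓ₂.Prime), ℓ₁ ≠ ℓ₂ ∧ ¬ Splits ℚ_[ℓ₁] c ∧
    ¬ Splits ℚ_[ℓ₂] c

/-- A sufficient condition for a cocycle with values in the nonzero integers to be essential:
`c s s` is not a square for some `s` with `s ^ 2 = 1`, or `c s t ≠ c t s` for some commuting
`s` and `t`, or `c` does not split over `ℚ_ℓ` for at least two prime numbers `ℓ`. -/
def NonSplit {P : Type*} [Group P] (c : P → P → ℤ) : Prop :=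
  (∃ s, s * s = 1 ∧ ¬ IsSquare (c s s)) ∨ (∃ s t, s * t = t * s ∧ c s t ≠ c t s) ∨ TwoPrimes c

theorem det_split {P : Type*} [Group P] [Finite P] (hP : IsPGroup 2 P) {F : Type*} [Field F]
    (c : P → P → ℤ) (hc : ∀ s t, (c s t : F) ≠ 0) {W : Type*} [AddCommGroup W] [Module F W]
    (hW : Odd (Module.finrank F W)) (Φ : P → W →ₗ[F] W) (h1 : Φ 1 = LinearMap.id)
    (hΦ : ∀ s t, (Φ s).comp (Φ t) = (c s t : F) • Φ (s * t)) : Splits F c := by
  classical
  have : Fintype P := Fintype.ofFinite P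
  have hfin : Module.Finite F W := by
    by_contra h
    rw [Module.finrank_of_not_finite h] at hW
    exact absurd hW (by decide)
  set n := Module.finrank F W with hn
  have hn0 : 0 < n := hW.pos
  have hnt : Nontrivial W := Module.nontrivial_of_finrank_pos (R := F) (by omega)
  set δ : P → F := fun s => LinearMap.det (Φ s) with hδ
  have hdd : ∀ s t, δ s * δ t = (c s t : F) ^ n * δ (s * t) := by
    intro s t
    simp only [hδ]
    rw [← LinearMap.det_comp, hΦ, LinearMap.det_smul]
  have hd1 : δ 1 = 1 := by simp only [hδ, h1, LinearMap.det_id]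
  have hd0 : ∀ s, δ s ≠ 0 := by
    intro s h0
    have := hdd s s⁻¹
    rw [h0, zero_mul, mul_inv_cancel, hd1, mul_one] at this
    exact pow_ne_zero n (hc _ _) this.symm
  have hne : ∀ s, Φ s ≠ 0 := by
    intro s h0
    apply hd0 s
    simp only [hδ, h0]
    have : Module.finrank F W ≠ 0 := by omega
    rw [LinearMap.det_zero, zero_pow this]
  have hcoc : ∀ s t u, (c s t : F) * c (s * t) u = c s (t * u) * c t u := by
    intro s t u
    have e1 : ((Φ s).comp (Φ t)).comp (Φ u) = ((c s t : F) * c (s * t) u) • Φ (s * t * u) := by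
      rw [hΦ, LinearMap.smul_comp, hΦ, smul_smul]
    have e2 : (Φ s).comp ((Φ t).comp (Φ u)) = ((c s (t * u) : F) * c t u) • Φ (s * t * u) := by
      rw [hΦ, LinearMap.comp_smul, hΦ, smul_smul, mul_comm (c t u : F), mul_assoc s t u]
    have e3 := e1.symm.trans ((LinearMap.comp_assoc _ _ _).trans e2)
    have e4 : ((c s t : F) * c (s * t) u - c s (t * u) * c t u) • Φ (s * t * u) = 0 := by
      rw [sub_smul, e3, sub_self]
    rcases smul_eq_zero.1 e4 with h | h
    · exact sub_eq_zero.1 h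
    · exact absurd h (hne _)
  set b : P → F := fun s => ∏ u, (c s u : F) with hb
  have hb0 : ∀ s, b s ≠ 0 := fun s => Finset.prod_ne_zero_iff.2 fun u _ => hc s u
  have hbb : ∀ s t, b s * b t = (c s t : F) ^ (Fintype.card P) * b (s * t) := by
    intro s t
    have e1 : b s = ∏ u, (c s (t * u) : F) := by
      simp only [hb]
      exact (Fintype.prod_equiv (Equiv.mulLeft t) _ _ fun u => rfl).symm
    rw [e1]
    simp only [hb]
    rw [← Finset.prod_mul_distrib, ← Finset.card_univ, ← Finset.prod_const,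
      ← Finset.prod_mul_distrib]
    exact Finset.prod_congr rfl fun u _ => (hcoc s t u).symm
  have hcop : IsCoprime (n : ℤ) (Fintype.card P : ℤ) := by
    obtain ⟨k, hk⟩ := (IsPGroup.iff_card.1 hP)
    rw [← Nat.card_eq_fintype_card, hk]
    rw [Nat.isCoprime_iff_coprime]
    exact (Nat.Coprime.pow_right k (Nat.coprime_two_right.2 hW))
  obtain ⟨x, y, hxy⟩ := hcop
  refine ⟨fun s => δ s ^ x * b s ^ y, fun s => mul_ne_zero (zpow_ne_zero _ (hd0 s))
    (zpow_ne_zero _ (hb0 s)), fun s t => ?_⟩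
  have e5 : (δ s ^ x * b s ^ y) * (δ t ^ x * b t ^ y) = (δ s * δ t) ^ x * (b s * b t) ^ y := by
    rw [mul_zpow, mul_zpow]; ring
  show (δ s ^ x * b s ^ y) * (δ t ^ x * b t ^ y) = (c s t : F) * (δ (s * t) ^ x * b (s * t) ^ y)
  rw [e5, hdd, hbb, mul_zpow, mul_zpow]
  have e6 : ((c s t : F) ^ n) ^ x * ((c s t : F) ^ Fintype.card P) ^ y = c s t := by
    rw [← zpow_natCast, ← zpow_natCast, ← zpow_mul, ← zpow_mul, ← zpow_add₀ (hc s t)]
    have : (n : ℤ) * x + (Fintype.card P : ℤ) * y = 1 := by linarith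
    rw [this, zpow_one]
  calc ((c s t : F) ^ n) ^ x * δ (s * t) ^ x * (((c s t : F) ^ Fintype.card P) ^ y * b (s * t) ^ y)
      = (((c s t : F) ^ n) ^ x * ((c s t : F) ^ Fintype.card P) ^ y) *
        (δ (s * t) ^ x * b (s * t) ^ y) := by ring
    _ = _ := by rw [e6]

end Pool.Agent.H.MP_ac3185_nt
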