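import Mathlib

/-! The number of infinite places is even if a `2`-group of at least `4` automorphisms acts. -/

set_option autoImplicit false

open NumberField

namespace Pool.Agent.H.MP_ac3185_nt

theorem even_of_orbits {G X : Type*} [Group G] [Finite G] [MulAction G X] [Fintype X]
    (h4 : 4 ∣ Nat.card G)
    (hst : ∀ x : X, Nat.card (MulAction.stabilizer G x) ≤ 2) : Even (Fintype.card X) := by
  classical
  have : Fintype G := Fintype.ofFinite G
  rw [Fintype.card_congr (MulAction.selfEquivSigmaOrbits G X), Fintype.card_sigma]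
  refine Finset.even_sum _ fun y _ => ?_
  have h1 := MulAction.card_orbit_mul_card_stabilizer_eq_card_group G y.out
  have h2 := hst y.out
  have h3 : 0 < Nat.card (MulAction.stabilizer G y.out) := Nat.card_pos
  rw [Nat.card_eq_fintype_card] at h2 h3 h4
  rw [← h1] at h4
  have h5 : Fintype.card (MulAction.stabilizer G y.out) = 1 ∨
    Fintype.card (MulAction.stabilizer G y.out) = 2 := by omega
  rcases h5 with h5 | h5
  · rw [h5] at h4
    obtain ⟨k, hk⟩ := h4
    exact ⟨2 * k, by omega⟩
  · rw [h5] at h4
    obtain ⟨k, hk⟩ := h4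
    exact ⟨k, by omega⟩

/-- A ring automorphism of a number field is an automorphism over `ℚ`. -/
noncomputable def ratAut (K : Type*) [Field K] [NumberField K] : RingAut K →* (K ≃ₐ[ℚ] K) where
  toFun s := AlgEquiv.ofRingEquiv (f := s) fun x => by simp
  map_one' := rfl
  map_mul' _ _ := rfl

theorem ratAut_injective (K : Type*) [Field K] [NumberField K] :
    Function.Injective (ratAut K) := by
  intro s t h
  ext x
  exact congrArg (fun f => f x) h

theorem even_infinitePlace {K : Type*} [Field K] [NumberField K] {P : Type*} [Group P] [Finite P]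
    (hP : IsPGroup 2 P) (ρ : P →* RingAut K) (h4 : 4 ≤ Nat.card ρ.range) :
    Even (Fintype.card (InfinitePlace K)) := by
  have hfin : Finite ρ.range :=
    Finite.of_surjective ρ.rangeRestrict ρ.rangeRestrict_surjective
  let _ : MulAction ρ.range (InfinitePlace K) :=
    MulAction.compHom _ ((ratAut K).comp ρ.range.subtype)
  refine even_of_orbits (G := ρ.range) ?_ ?_
  · have hR : IsPGroup 2 ρ.range := hP.of_surjective ρ.rangeRestrict ρ.rangeRestrict_surjective
    obtain ⟨k, hk⟩ := IsPGroup.iff_card.1 hR
    rw [hk] at h4 ⊢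
    have : 2 ≤ k := by
      by_contra hlt
      have : k = 0 ∨ k = 1 := by omega
      rcases this with rfl | rfl <;> simp at h4
    exact pow_dvd_pow 2 this
  · intro w
    have h1 : Nat.card (MulAction.stabilizer (K ≃ₐ[ℚ] K) w) ≤ 2 := by
      rcases InfinitePlace.nat_card_stabilizer_eq_one_or_two ℚ w with h | h <;> omega
    refine le_trans ?_ h1
    have hfin2 : Finite (MulAction.stabilizer (K ≃ₐ[ℚ] K) w) := by
      refine Nat.finite_of_card_ne_zero ?_
      rcases InfinitePlace.nat_card_stabilizer_eq_one_or_two ℚ w with h | h <;> omega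
    refine Nat.card_le_card_of_injective
      (fun a : MulAction.stabilizer ρ.range w =>
        (⟨ratAut K a.1.1, a.2⟩ : MulAction.stabilizer (K ≃ₐ[ℚ] K) w)) ?_
    intro a b hab
    apply Subtype.ext
    apply Subtype.ext
    exact ratAut_injective K (congrArg Subtype.val hab)

end Pool.Agent.H.MP_ac3185_nt
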