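import Pool.Agent.H.MP_ac3185_nt.PointsDefs

/-! Points of abelian varieties, Galois action, semilinear endomorphisms. -/

set_option autoImplicit false

open CategoryTheory AlgebraicGeometry MonoidalCategory CartesianMonoidalCategory MonObj

namespace Pool.Agent.H.MP_ac3185_nt

universe u

section basic

variable {K : Type u} [Field K]

theorem push_w {A : Over (Spec (.of K))} {s : RingAut K} (T : A.left ⟶ A.left)
    (hT : T ≫ A.hom = A.hom ≫ specInv s) {S : Scheme.{u}} (p : S ⟶ Spec (.of K))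
    (x : S ⟶ A.left) (hx : x ≫ A.hom = p) : (x ≫ T) ≫ A.hom = p ≫ specInv s := by
  rw [Category.assoc, hT, ← Category.assoc, hx]

/-- The composition of an `S`-valued point `x` of `A` with an `s`-semilinear morphism
`T : A → A` (a morphism of schemes lying over `Spec (s⁻¹)`); it is an `S`-valued point of `A` for
the structure morphism of `S` composed with `Spec (s⁻¹)`. -/
noncomputable def push {A : Over (Spec (.of K))} {s : RingAut K} (T : A.left ⟶ A.left)
    (hT : T ≫ A.hom = A.hom ≫ specInv s) {S : Scheme.{u}} (p : S ⟶ Spec (.of K))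
    (x : Over.mk p ⟶ A) : Over.mk (p ≫ specInv s) ⟶ A :=
  Over.homMk (U := Over.mk (p ≫ specInv s)) ((show S ⟶ A.left from x.left) ≫ T)
    (push_w T hT p x.left (Over.w x))

/-- A semilinear morphism `T` from `A` to itself is additive if it respects the addition of points
with values in arbitrary schemes. -/
def IsAdditive {A : Over (Spec (.of K))} [GrpObj A] {s : RingAut K} (T : A.left ⟶ A.left)
    (hT : T ≫ A.hom = A.hom ≫ specInv s) : Prop :=
  ∀ (S : Scheme.{u}) (p : S ⟶ Spec (.of K)) (x y : Over.mk p ⟶ A),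
    push T hT p (x * y) = push T hT p x * push T hT p y

end basic

section semi

variable {K : Type u} [Field K] {P : Type*} [Group P] (ρ : P →* RingAut K)
  (A : Over (Spec (.of K))) [GrpObj A]

/-- A system of semilinear endomorphisms `T s` (`s` in `P`) of the group scheme `A`, with
`T 1 = 1` and `T s ∘ T t = [c s t] ∘ T (s t)`. -/
structure SemiSystem (c : P → P → ℤ) where
  /-- the semilinear endomorphisms -/
  T : P → (A.left ⟶ A.left)
  semilinear : ∀ s, T s ≫ A.hom = A.hom ≫ specInv (ρ s)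
  additive : ∀ s, IsAdditive (T s) (semilinear s)
  one : T 1 = 𝟙 A.left
  comp : ∀ s t, T t ≫ T s = T (s * t) ≫ ((𝟙 A : A ⟶ A) ^ (c s t)).left

/-- The automorphisms of `L` which extend the automorphism `ρ s` of `K`, together with `s`. -/
def bigGal (L : Type u) [Field L] [Algebra K L] : Subgroup (P × RingAut L) where
  carrier := {a | ∀ x : K, a.2 (algebraMap K L x) = algebraMap K L (ρ a.1 x)}
  one_mem' := fun x => by simp
  mul_mem' := by
    intro a b ha hb x
    show a.2 (b.2 (algebraMap K L x)) = _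
    rw [hb, ha]
    simp
  inv_mem' := by
    intro a ha x
    show a.2⁻¹ (algebraMap K L x) = algebraMap K L (ρ a.1⁻¹ x)
    have h := ha (ρ a.1⁻¹ x)
    have h2 : ρ a.1 (ρ a.1⁻¹ x) = x := by
      rw [← RingAut.mul_apply, ← map_mul]
      simp
    rw [h2] at h
    rw [← h]
    show (a.2⁻¹ * a.2) _ = _
    simp

variable {ρ A}

/-- `Spec g : Spec L → Spec L`, as a morphism from `Spec L` to its twist. -/
noncomputable def specTwist {L : Type u} [Field L] [Algebra K L] (a : bigGal ρ L) :
    specOver K L ⟶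
      Over.mk (Spec.map (CommRingCat.ofHom (algebraMap K L)) ≫ specInv (ρ a.1.1)) :=
  Over.homMk (Spec.map (CommRingCat.ofHom (a.1.2 : L →+* L))) (by
    show Spec.map _ ≫ Spec.map _ ≫ Spec.map _ = Spec.map _
    rw [← Spec.map_comp, ← Spec.map_comp]
    congr 1
    ext x
    show a.1.2 (algebraMap K L ((ρ a.1.1).symm x)) = algebraMap K L x
    rw [a.2]
    simp)

variable {c : P → P → ℤ} [IsAbVar A] (𝒯 : SemiSystem ρ A c)

/-- the map of points given by an element of `bigGal` -/
noncomputable def bigFn {L : Type u} [Field L] [Algebra K L] (a : bigGal ρ L) (x : Pts A L) :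
    Pts A L :=
  Additive.ofMul (specTwist a ≫ push (𝒯.T a.1.1) (𝒯.semilinear a.1.1) _
    (Additive.toMul x : specOver K L ⟶ A))

/-- The action of `bigGal` on `A(L)`. -/
noncomputable def bigHom {L : Type u} [Field L] [Algebra K L] (a : bigGal ρ L) :
    Pts A L →+ Pts A L where
  toFun := bigFn 𝒯 a
  map_zero' := by
    show Additive.ofMul (specTwist a ≫ push (𝒯.T a.1.1) (𝒯.semilinear a.1.1) _
      (1 : specOver K L ⟶ A)) = Additive.ofMul 1
    have h := 𝒯.additive a.1.1 _ (Spec.map (CommRingCat.ofHom (algebraMap K L))) 1 1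
    rw [_root_.mul_one] at h
    rw [left_eq_mul.1 h, MonObj.comp_one]
  map_add' x y := by
    have h : specTwist a ≫ push (𝒯.T a.1.1) (𝒯.semilinear a.1.1) _
        ((Additive.toMul x : specOver K L ⟶ A) * Additive.toMul y) =
        (specTwist a ≫ push (𝒯.T a.1.1) (𝒯.semilinear a.1.1) _ (Additive.toMul x)) *
        (specTwist a ≫ push (𝒯.T a.1.1) (𝒯.semilinear a.1.1) _ (Additive.toMul y)) := by
      rw [𝒯.additive, MonObj.comp_mul]
    exact congrArg Additive.ofMul h

theorem bigHom_left {L : Type u} [Field L] [Algebra K L] (a : bigGal ρ L) (x : Pts A L) :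
    (Additive.toMul (bigHom 𝒯 a x) : specOver K L ⟶ A).left =
      Spec.map (CommRingCat.ofHom (a.1.2 : L →+* L)) ≫
        (show Spec (.of L) ⟶ A.left from (Additive.toMul x : specOver K L ⟶ A).left) ≫
          𝒯.T a.1.1 := rfl

theorem cat_aux {C : Type*} [Category C] {X Y : C} (fa fb fab : X ⟶ X) (x : X ⟶ Y)
    (ta tb tab n : Y ⟶ Y) (h1 : fab = fa ≫ fb) (h2 : tb ≫ ta = tab ≫ n) :
    fa ≫ (fb ≫ x ≫ tb) ≫ ta = (fab ≫ x ≫ tab) ≫ n := by
  subst h1
  simp only [Category.assoc]
  rw [h2]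

theorem bigHom_comp {L : Type u} [Field L] [Algebra K L] (a b : bigGal ρ L) :
    (bigHom 𝒯 a).comp (bigHom 𝒯 b) = (c a.1.1 b.1.1) • bigHom 𝒯 (a * b) := by
  refine AddMonoidHom.ext fun x => ?_
  have h1 : ((c a.1.1 b.1.1) • bigHom 𝒯 (a * b)) x =
      Additive.ofMul ((Additive.toMul (bigHom 𝒯 (a * b) x) : specOver K L ⟶ A) ≫
        ((𝟙 A : A ⟶ A) ^ (c a.1.1 b.1.1))) := by
    rw [GrpObj.comp_zpow, Category.comp_id]
    rfl
  rw [h1]
  have h2 : Spec.map (CommRingCat.ofHom (((a * b : bigGal ρ L)).1.2 : L →+* L)) =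
      Spec.map (CommRingCat.ofHom (a.1.2 : L →+* L)) ≫
        Spec.map (CommRingCat.ofHom (b.1.2 : L →+* L)) := by
    rw [← Spec.map_comp]
    rfl
  have h3 : (Additive.toMul (((bigHom 𝒯 a).comp (bigHom 𝒯 b)) x) : specOver K L ⟶ A) =
      (Additive.toMul (bigHom 𝒯 (a * b) x) : specOver K L ⟶ A) ≫
        ((𝟙 A : A ⟶ A) ^ (c a.1.1 b.1.1)) := by
    apply Over.OverMorphism.ext
    exact cat_aux (X := Spec (.of L)) (Y := A.left) _ _ _
      (show Spec (.of L) ⟶ A.left from (Additive.toMul x : specOver K L ⟶ A).left) _ _ _ _ h2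
      (𝒯.comp a.1.1 b.1.1)
  exact congrArg Additive.ofMul h3

theorem bigHom_gal {L : Type u} [Field L] [Algebra K L] (a : bigGal ρ L) (g : L ≃ₐ[K] L)
    (h1 : a.1.1 = 1) (h2 : ∀ x, a.1.2 x = g x) : bigHom 𝒯 a = galHom A g := by
  refine AddMonoidHom.ext fun x => ?_
  have e1 : 𝒯.T a.1.1 = 𝟙 A.left := by
    rw [h1]
    exact 𝒯.one
  have e2 : (a.1.2 : L →+* L) = (g : L →+* L) := RingHom.ext h2
  have e3 : (Additive.toMul (bigHom 𝒯 a x) : specOver K L ⟶ A) =
      specGal g ≫ (Additive.toMul x : specOver K L ⟶ A) := by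
    apply Over.OverMorphism.ext
    rw [bigHom_left, e1, e2, Category.comp_id]
    rfl
  exact congrArg Additive.ofMul e3

end semi

end Pool.Agent.H.MP_ac3185_nt
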