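import Pool.Agent.H.MP_ac3185_nt.Det

/-! Invariants of a quotient. -/

set_option autoImplicit false

namespace Pool.Agent.H.MP_ac3185_nt

section defs

variable {F V : Type*} [Field F] [AddCommGroup V] [Module F V]

/-- The vectors fixed by a set `S` of operators. -/
def fixedBy (S : Set (V →ₗ[F] V)) : Submodule F V where
  carrier := {x | ∀ f ∈ S, f x = x}
  zero_mem' := fun f _ => map_zero f
  add_mem' := fun {x y} hx hy f hf => by rw [map_add, hx f hf, hy f hf]
  smul_mem' := fun a x hx f hf => by rw [map_smul, hx f hf]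

/-- The vectors `x` with `f x - x` fixed by `S` for all `f` in `T`. -/
def preInv (S T : Set (V →ₗ[F] V)) : Submodule F V where
  carrier := {x | ∀ f ∈ T, f x - x ∈ fixedBy S}
  zero_mem' := fun f _ => by simp
  add_mem' := fun {x y} hx hy f hf => by
    have : f (x + y) - (x + y) = (f x - x) + (f y - y) := by rw [map_add]; abel
    rw [this]
    exact add_mem (hx f hf) (hy f hf)
  smul_mem' := fun a x hx f hf => by
    have : f (a • x) - a • x = a • (f x - x) := by rw [map_smul, smul_sub]
    rw [this]
    exact Submodule.smul_mem _ _ (hx f hf)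

/-- `(V / V^S)^T`, for two sets `S`, `T` of operators of `V`. -/
def quotInv (S T : Set (V →ₗ[F] V)) : Submodule F (V ⧸ fixedBy S) :=
  (preInv S T).map (fixedBy S).mkQ

/-- The dimension of `(V / V^S)^T`. -/
noncomputable def quotRank (S T : Set (V →ₗ[F] V)) : ℕ := Module.finrank F (quotInv S T)

/-- `(f - 1) ^ 2 = 0` -/
def IsUnip (f : V →ₗ[F] V) : Prop := ∀ x, f (f x - x) = f x - x

/-- `e` transports the operator `f` to the operator `f'`, i.e. `f' = e f e⁻¹` -/
def Carries (e : V ≃ₗ[F] V) (f f' : V →ₗ[F] V) : Prop := ∀ x, f' (e x) = e (f x)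

end defs

end Pool.Agent.H.MP_ac3185_nt
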