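import Pool.Agent.H.MP_ac3185_nt.Det
import Pool.Agent.H.MP_ac3185_nt.ProjDefs

/-! Invariants of a quotient and projective representations. -/

set_option autoImplicit false

namespace Pool.Agent.H.MP_ac3185_nt

section defs

variable {F V : Type*} [Field F] [AddCommGroup V] [Module F V]

theorem mem_fixedBy {S : Set (V →ₗ[F] V)} {x : V} : x ∈ fixedBy S ↔ ∀ f ∈ S, f x = x := Iff.rfl

theorem mem_preInv {S T : Set (V →ₗ[F] V)} {x : V} :
    x ∈ preInv S T ↔ ∀ f ∈ T, f x - x ∈ fixedBy S := Iff.rfl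

theorem fixedBy_map (e : V ≃ₗ[F] V) {S S' : Set (V →ₗ[F] V)}
    (h1 : ∀ f ∈ S, ∃ f' ∈ S', ∀ x, f' (e x) = e (f x))
    (h2 : ∀ f' ∈ S', ∃ f ∈ S, ∀ x, f' (e x) = e (f x)) (x : V) :
    e x ∈ fixedBy S' ↔ x ∈ fixedBy S := by
  constructor
  · intro h f hf
    obtain ⟨f', hf', hh⟩ := h1 f hf
    have := h f' hf'
    rw [hh x] at this
    exact e.injective this
  · intro h f' hf'
    obtain ⟨f, hf, hh⟩ := h2 f' hf'
    rw [hh x, h f hf]

theorem preInv_map (e : V ≃ₗ[F] V) {S S' T T' : Set (V →ₗ[F] V)}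
    (h1 : ∀ f ∈ S, ∃ f' ∈ S', ∀ x, f' (e x) = e (f x))
    (h2 : ∀ f' ∈ S', ∃ f ∈ S, ∀ x, f' (e x) = e (f x))
    (h3 : ∀ f ∈ T, ∃ f' ∈ T', ∀ x, f' (e x) = e (f x))
    (h4 : ∀ f' ∈ T', ∃ f ∈ T, ∀ x, f' (e x) = e (f x)) (x : V) :
    e x ∈ preInv S' T' ↔ x ∈ preInv S T := by
  constructor
  · intro h f hf
    obtain ⟨f', hf', hh⟩ := h3 f hf
    have := h f' hf'
    rw [hh x, ← map_sub] at this
    exact (fixedBy_map e h1 h2 _).1 this
  · intro h f' hf'
    obtain ⟨f, hf, hh⟩ := h4 f' hf'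
    rw [hh x, ← map_sub]
    exact (fixedBy_map e h1 h2 _).2 (h f hf)

/-- transport of `quotInv` by an automorphism -/
theorem quotInv_finrank (e : V ≃ₗ[F] V) {S S' T T' : Set (V →ₗ[F] V)}
    (h1 : ∀ f ∈ S, ∃ f' ∈ S', ∀ x, f' (e x) = e (f x))
    (h2 : ∀ f' ∈ S', ∃ f ∈ S, ∀ x, f' (e x) = e (f x))
    (h3 : ∀ f ∈ T, ∃ f' ∈ T', ∀ x, f' (e x) = e (f x))
    (h4 : ∀ f' ∈ T', ∃ f ∈ T, ∀ x, f' (e x) = e (f x)) :
    Module.finrank F (quotInv S T) = Module.finrank F (quotInv S' T') := by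
  have hU : (fixedBy S).map (e : V →ₗ[F] V) = fixedBy S' := by
    ext y
    constructor
    · rintro ⟨x, hx, rfl⟩
      exact (fixedBy_map e h1 h2 x).2 hx
    · intro hy
      refine ⟨e.symm y, ?_, e.apply_symm_apply y⟩
      exact (fixedBy_map e h1 h2 _).1 (by rwa [e.apply_symm_apply])
  let E : (V ⧸ fixedBy S) ≃ₗ[F] (V ⧸ fixedBy S') := Submodule.Quotient.equiv _ _ e hU
  have hE : (quotInv S T).map (E : (V ⧸ fixedBy S) →ₗ[F] (V ⧸ fixedBy S')) = quotInv S' T' := by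
    ext y
    constructor
    · rintro ⟨_, ⟨x, hx, rfl⟩, rfl⟩
      exact ⟨e x, (preInv_map e h1 h2 h3 h4 x).2 hx, rfl⟩
    · rintro ⟨y, hy, rfl⟩
      refine ⟨(fixedBy S).mkQ (e.symm y), ⟨e.symm y, ?_, rfl⟩, ?_⟩
      · exact (preInv_map e h1 h2 h3 h4 _).1 (by rwa [e.apply_symm_apply])
      · show (fixedBy S').mkQ (e (e.symm y)) = _
        rw [e.apply_symm_apply]
  rw [← hE]
  exact (LinearEquiv.finrank_eq (E.submoduleMap (quotInv S T)))

end defs

section proj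

variable {F V : Type*} [Field F] [AddCommGroup V] [Module F V]
variable {N P : Type*} [Group N] [Group P]

/-- If the group `N` acts projectively on `V`, with cocycle inflated from the finite `2`-group
`P = N / D`, and `I ≤ D` is normal in `N`, then `(V / V^I)^D` is even dimensional or the cocycle
splits. -/
theorem quotInv_odd [Finite P] (hP : IsPGroup 2 P) (π : N →* P) (hπ : Function.Surjective π)
    (c : P → P → ℤ) (hc : ∀ s t, (c s t : F) ≠ 0) (hc1 : ∀ s, c s 1 = 1) (hc2 : ∀ s, c 1 s = 1)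
    (Φ : N → V →ₗ[F] V) (h1 : Φ 1 = LinearMap.id)
    (hΦ : ∀ a b, (Φ a).comp (Φ b) = (c (π a) (π b) : F) • Φ (a * b))
    (I : Subgroup N) (hI : I.Normal) (hID : ∀ i ∈ I, π i = 1)
    (S T : Set (V →ₗ[F] V)) (hS : S = Φ '' (I : Set N)) (hT : T = Φ '' {d | π d = 1})
    (hodd : Odd (Module.finrank F (quotInv S T))) : Splits F c := by
  classical
  have hc1' : ∀ s, (c s 1 : F) = 1 := fun s => by rw [hc1]; simp
  have hc2' : ∀ s, (c 1 s : F) = 1 := fun s => by rw [hc2]; simp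
  have hcomp : ∀ a b x, Φ a (Φ b x) = (c (π a) (π b) : F) • Φ (a * b) x := fun a b x => by
    have := congrArg (fun f => f x) (hΦ a b)
    simpa using this
  have hl : ∀ d b x, π d = 1 → Φ d (Φ b x) = Φ (d * b) x := fun d b x hd => by
    rw [hcomp, hd, hc2', one_smul]
  have hr : ∀ a d x, π d = 1 → Φ a (Φ d x) = Φ (a * d) x := fun a d x hd => by
    rw [hcomp, hd, hc1', one_smul]
  have hfix : ∀ a x, x ∈ fixedBy S → Φ a x ∈ fixedBy S := by
    intro a x hx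
    rw [hS] at hx ⊢
    rintro _ ⟨i, hi, rfl⟩
    have hj : a⁻¹ * i * a ∈ I := by
      have := hI.conj_mem i hi a⁻¹
      simpa using this
    have hx' := hx _ ⟨_, hj, rfl⟩
    rw [hl i a x (hID i hi)]
    have : i * a = a * (a⁻¹ * i * a) := by group
    rw [this, ← hr a _ x (hID _ hj), hx']
  have hpre : ∀ a x, x ∈ preInv S T → Φ a x ∈ preInv S T := by
    intro a x hx
    intro f hf
    rw [hT] at hf
    obtain ⟨d, hd, rfl⟩ := hf
    have hd : π d = 1 := hd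
    have hj : π (a⁻¹ * d * a) = 1 := by simp [hd]
    have hx' := hx (Φ (a⁻¹ * d * a)) (by rw [hT]; exact ⟨_, hj, rfl⟩)
    rw [hl d a x hd]
    have : d * a = a * (a⁻¹ * d * a) := by group
    rw [this, ← hr a _ x hj, ← map_sub]
    exact hfix a _ hx'
  let Q : N → (V ⧸ fixedBy S) →ₗ[F] (V ⧸ fixedBy S) := fun a =>
    (fixedBy S).mapQ (fixedBy S) (Φ a) (fun x hx => hfix a x hx)
  have hQ : ∀ a x, Q a ((fixedBy S).mkQ x) = (fixedBy S).mkQ (Φ a x) := fun a x => rfl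
  have hQmem : ∀ a, ∀ y ∈ quotInv S T, Q a y ∈ quotInv S T := by
    rintro a _ ⟨x, hx, rfl⟩
    exact ⟨Φ a x, hpre a x hx, rfl⟩
  let R : N → quotInv S T →ₗ[F] quotInv S T := fun a => (Q a).restrict (hQmem a)
  have hRd : ∀ d, π d = 1 → R d = LinearMap.id := by
    intro d hd
    ext ⟨y, x, hx, rfl⟩
    show Q d ((fixedBy S).mkQ x) = (fixedBy S).mkQ x
    rw [hQ, ← sub_eq_zero, ← map_sub]
    rw [Submodule.mkQ_apply, Submodule.Quotient.mk_eq_zero]
    exact hx _ (by rw [hT]; exact ⟨d, hd, rfl⟩)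
  have hRc : ∀ a b, (R a).comp (R b) = (c (π a) (π b) : F) • R (a * b) := by
    intro a b
    ext ⟨y, x, hx, rfl⟩
    show Q a (Q b ((fixedBy S).mkQ x)) = (c (π a) (π b) : F) • Q (a * b) ((fixedBy S).mkQ x)
    rw [hQ, hQ, hQ, hcomp, map_smul]
  have hRe : ∀ a b, π a = π b → R a = R b := by
    intro a b hab
    have h3 := hRc b (b⁻¹ * a)
    have h4 : π (b⁻¹ * a) = 1 := by simp [hab]
    rw [h4, hc1', one_smul, hRd _ h4, LinearMap.comp_id, mul_inv_cancel_left] at h3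
    exact h3.symm
  let σ : P → N := Function.surjInv hπ
  have hσ : ∀ s, π (σ s) = s := Function.surjInv_eq hπ
  refine det_split hP c hc hodd (fun s => R (σ s)) (hRd _ (by rw [hσ])) fun s t => ?_
  rw [hRc, hσ, hσ, hRe (σ s * σ t) (σ (s * t)) (by simp [hσ])]

end proj

end Pool.Agent.H.MP_ac3185_nt
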