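import Mathlib

/-! The Galois group acts transitively on the primes of the ring of integers above a prime. -/

set_option autoImplicit false

open NumberField

namespace Pool.Agent.H.MP_ac3185_nt

universe u

variable {K : Type u} [Field K] {L : Type u} [Field L] [Algebra K L]

theorem coe_gal_smul (g : L ≃ₐ[K] L) (x : 𝓞 L) : ((g • x : 𝓞 L) : L) = g x := rfl

instance smulComm : SMulCommClass (L ≃ₐ[K] L) (𝓞 K) (𝓞 L) where
  smul_comm g a x := by
    apply RingOfIntegers.ext
    rw [coe_gal_smul, Algebra.smul_def, Algebra.smul_def]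
    simp only [map_mul]
    congr 1
    exact g.commutes (a : K)

theorem invariant [IsGalois K L] : Algebra.IsInvariant (𝓞 K) (𝓞 L) (L ≃ₐ[K] L) where
  isInvariant b hb := by
    have h1 : ∀ g : L ≃ₐ[K] L, g (b : L) = b := fun g => by
      rw [← coe_gal_smul, hb]
    have h2 : (b : L) ∈ (⊥ : IntermediateField K L) := by
      rw [InfiniteGalois.mem_bot_iff_fixed]
      exact h1
    rw [IntermediateField.mem_bot] at h2
    obtain ⟨a, ha⟩ := h2
    have h3 : IsIntegral ℤ a := by
      have : IsIntegral ℤ (algebraMap K L a) := by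
        rw [ha]
        exact b.2
      exact (isIntegral_algebraMap_iff (algebraMap K L).injective).1 this
    refine ⟨⟨a, h3⟩, ?_⟩
    apply RingOfIntegers.ext
    exact ha

theorem exists_gal [IsGalois K L] (P Q : Ideal (𝓞 L)) [P.IsPrime] [Q.IsPrime]
    (h : P.comap (algebraMap (𝓞 K) (𝓞 L)) = Q.comap (algebraMap (𝓞 K) (𝓞 L))) :
    ∃ g : L ≃ₐ[K] L, ∀ x : 𝓞 L, g • x ∈ Q ↔ x ∈ P := by
  let : TopologicalSpace (𝓞 L) := ⊥
  have : DiscreteTopology (𝓞 L) := ⟨rfl⟩
  have : ContinuousSMul (L ≃ₐ[K] L) (𝓞 L) := by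
    rw [continuousSMul_iff_stabilizer_isOpen]
    intro x
    have := stabilizer_isOpen_of_isIntegral (K := K) (x : L)
    convert this using 2
    ext g
    rw [MulAction.mem_stabilizer_iff, MulAction.mem_stabilizer_iff]
    constructor
    · intro hh
      rw [AlgEquiv.smul_def, ← coe_gal_smul, hh]
    · intro hh
      exact RingOfIntegers.ext hh
  have : Algebra.IsInvariant (𝓞 K) (𝓞 L) (L ≃ₐ[K] L) := invariant
  obtain ⟨g, hg⟩ := Algebra.IsInvariant.exists_smul_of_under_eq_of_profinite
    (G := L ≃ₐ[K] L) (A := 𝓞 K) P Q h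
  refine ⟨g, fun x => ?_⟩
  rw [hg]
  exact Ideal.smul_mem_pointwise_smul_iff

end Pool.Agent.H.MP_ac3185_nt
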