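import Pool.Agent.H.MP_ac3185_nt.PlacesDefs
import Pool.Agent.H.MP_ac3185_nt.Points
import Pool.Agent.H.MP_ac3185_nt.Proj
import Pool.Agent.H.MP_ac3185_nt.Trans

/-! Inertia and decomposition groups, the action of the semilinear endomorphisms on the Tate
module, local signs. -/

set_option autoImplicit false

open CategoryTheory AlgebraicGeometry NumberField
open scoped MonObj Pointwise

namespace Pool.Agent.H.MP_ac3185_nt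

universe u

section big

variable {K : Type u} [Field K] {L : Type u} [Field L] [Algebra K L]
variable {P : Type*} [Group P] {ρ : P →* RingAut K}

theorem coe_aut_smul (g : RingAut L) (x : 𝓞 L) : ((g • x : 𝓞 L) : L) = g x := rfl

theorem big_commutes (a : bigGal ρ L) (x : K) :
    a.1.2 (algebraMap K L x) = algebraMap K L (ρ a.1.1 x) := a.2 x

theorem big_smul (a : bigGal ρ L) (x : 𝓞 K) :
    a.1.2 • (algebraMap (𝓞 K) (𝓞 L) x) = algebraMap (𝓞 K) (𝓞 L) (ρ a.1.1 • x) := by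
  apply RingOfIntegers.ext
  rw [coe_aut_smul]
  exact big_commutes a x

/-- A `K`-automorphism of `L` as an element of `bigGal`. -/
def kerBig (ρ : P →* RingAut K) (g : L ≃ₐ[K] L) : bigGal ρ L :=
  ⟨(1, (g : L ≃+* L)), fun x => by simp⟩

theorem kerBig_smul (g : L ≃ₐ[K] L) (x : 𝓞 L) : (kerBig ρ g).1.2 • x = g • x := rfl

theorem exists_kerBig (a : bigGal ρ L) (h : a.1.1 = 1) : ∃ g : L ≃ₐ[K] L, kerBig ρ g = a := by
  refine ⟨AlgEquiv.ofRingEquiv (f := a.1.2) fun x => ?_, ?_⟩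
  · rw [big_commutes, h, map_one]; rfl
  · apply Subtype.ext
    refine Prod.ext h.symm ?_
    ext x
    rfl

/-- Every element of `P` is the first component of an element of `bigGal`, for an algebraic
closure. -/
theorem exists_big [IsAlgClosure K L] (s : P) : ∃ a : bigGal ρ L, a.1.1 = s :=
  ⟨⟨(s, IsAlgClosure.equivOfEquiv L L (ρ s)), fun x =>
    IsAlgClosure.equivOfEquiv_algebraMap L L (ρ s) x⟩, rfl⟩

theorem exists_big_prime [CharZero K] [IsAlgClosure K L] (s : P) (p q : Ideal (𝓞 K))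
    (hpq : ∀ x, ρ s • x ∈ q ↔ x ∈ p) (𝔓 𝔔 : Ideal (𝓞 L)) [𝔓.IsPrime] [𝔔.IsPrime]
    (h𝔓 : 𝔓.comap (algebraMap (𝓞 K) (𝓞 L)) = p) (h𝔔 : 𝔔.comap (algebraMap (𝓞 K) (𝓞 L)) = q) :
    ∃ a : bigGal ρ L, a.1.1 = s ∧ ∀ x : 𝓞 L, a.1.2 • x ∈ 𝔔 ↔ x ∈ 𝔓 := by
  obtain ⟨a, ha⟩ := exists_big (ρ := ρ) (L := L) s
  have hL : IsGalois K L := IsAlgClosure.isGalois K L
  have h1 : (a.1.2 • 𝔓).comap (algebraMap (𝓞 K) (𝓞 L)) = 𝔔.comap (algebraMap (𝓞 K) (𝓞 L)) := by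
    rw [h𝔔]
    ext x
    have h2 : x = ρ a.1.1 • ((ρ a.1.1)⁻¹ • x) := by rw [smul_inv_smul]
    rw [Ideal.mem_comap, h2, ← big_smul, Ideal.smul_mem_pointwise_smul_iff, ha, hpq, ← h𝔓]
    rfl
  obtain ⟨g, hg⟩ := exists_gal (K := K) (a.1.2 • 𝔓) 𝔔 h1
  refine ⟨kerBig ρ g * a, ?_, fun x => ?_⟩
  · show 1 * a.1.1 = s
    rw [one_mul, ha]
  · have : (kerBig ρ g * a).1.2 • x = g • (a.1.2 • x) := by
      show ((kerBig ρ g).1.2 * a.1.2) • x = _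
      rw [mul_smul, kerBig_smul]
    rw [this, hg, Ideal.smul_mem_pointwise_smul_iff]

end big

section act

variable {K : Type u} [Field K] {L : Type u} [Field L] [Algebra K L]
variable {P : Type*} [Group P] {ρ : P →* RingAut K} {A : Over (Spec (.of K))} [GrpObj A]
  [IsAbVar A] {c : P → P → ℤ} (𝒯 : SemiSystem ρ A c) (ℓ : ℕ) [Fact ℓ.Prime]

/-- the action on the Tate module -/
noncomputable def tateHom (a : bigGal ρ L) :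
    VTate ℓ (Pts A L) →ₗ[ℚ_[ℓ]] VTate ℓ (Pts A L) := VTate.map (bigHom 𝒯 a)

theorem tateHom_comp (a b : bigGal ρ L) : (tateHom 𝒯 ℓ a).comp (tateHom 𝒯 ℓ b) =
    (c a.1.1 b.1.1 : ℚ_[ℓ]) • tateHom 𝒯 ℓ (a * b) := by
  unfold tateHom
  rw [← VTate.map_comp, bigHom_comp, VTate.map_zsmul]

theorem tateHom_ker (g : L ≃ₐ[K] L) :
    tateHom 𝒯 ℓ (kerBig ρ g) = galV A ℓ g := by
  unfold tateHom galV
  rw [bigHom_gal 𝒯 (kerBig ρ g) g rfl (fun _ => rfl)]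

theorem galHom_one : galHom A (1 : L ≃ₐ[K] L) = AddMonoidHom.id _ := by
  refine AddMonoidHom.ext fun x => ?_
  apply Additive.toMul.injective
  apply Over.OverMorphism.ext
  show Spec.map (CommRingCat.ofHom (RingHom.id L)) ≫ x.toMul.left = x.toMul.left
  have : CommRingCat.ofHom (RingHom.id L) = 𝟙 (CommRingCat.of L) := rfl
  rw [this, Spec.map_id]
  exact Category.id_comp _

theorem kerBig_one : kerBig ρ (1 : L ≃ₐ[K] L) = 1 := rfl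

theorem tateHom_one : tateHom 𝒯 ℓ (1 : bigGal ρ L) = LinearMap.id := by
  rw [← kerBig_one, tateHom_ker, galV, galHom_one, VTate.map_id]

theorem ops_eq (S : Set (L ≃ₐ[K] L)) (S' : Set (bigGal ρ L))
    (h : ∀ a : bigGal ρ L, a ∈ S' ↔ ∃ g ∈ S, kerBig ρ g = a) :
    ops A ℓ S = tateHom 𝒯 ℓ '' S' := by
  ext f
  constructor
  · rintro ⟨g, hg, rfl⟩
    exact ⟨kerBig ρ g, (h _).2 ⟨g, hg, rfl⟩, tateHom_ker 𝒯 ℓ g⟩
  · rintro ⟨a, ha, rfl⟩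
    obtain ⟨g, hg, rfl⟩ := (h _).1 ha
    exact ⟨g, hg, (tateHom_ker 𝒯 ℓ g).symm⟩

/-- the inertia group in `bigGal` -/
def bigInertia (ρ : P →* RingAut K) (𝔓 : Ideal (𝓞 L)) : Set (bigGal ρ L) :=
  {a | a.1.1 = 1 ∧ ∀ x : 𝓞 L, a.1.2 • x - x ∈ 𝔓}

/-- the decomposition group in `bigGal` -/
def bigDecomp (ρ : P →* RingAut K) (𝔓 : Ideal (𝓞 L)) : Set (bigGal ρ L) :=
  {a | a.1.1 = 1 ∧ ∀ x : 𝓞 L, a.1.2 • x ∈ 𝔓 ↔ x ∈ 𝔓}

theorem ops_inertia (𝔓 : Ideal (𝓞 L)) :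
    ops A ℓ (inertia K 𝔓) = tateHom 𝒯 ℓ '' bigInertia ρ 𝔓 := by
  refine ops_eq 𝒯 ℓ _ _ fun a => ⟨fun ha => ?_, ?_⟩
  · obtain ⟨g, rfl⟩ := exists_kerBig a ha.1
    exact ⟨g, fun x => ha.2 x, rfl⟩
  · rintro ⟨g, hg, rfl⟩
    exact ⟨rfl, fun x => hg x⟩

theorem ops_decomp (𝔓 : Ideal (𝓞 L)) :
    ops A ℓ (decomp K 𝔓) = tateHom 𝒯 ℓ '' bigDecomp ρ 𝔓 := by
  refine ops_eq 𝒯 ℓ _ _ fun a => ⟨fun ha => ?_, ?_⟩
  · obtain ⟨g, rfl⟩ := exists_kerBig a ha.1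
    exact ⟨g, fun x => ha.2 x, rfl⟩
  · rintro ⟨g, hg, rfl⟩
    exact ⟨rfl, fun x => hg x⟩

theorem conj_inertia (𝔓 𝔔 : Ideal (𝓞 L)) (a : bigGal ρ L)
    (h : ∀ x : 𝓞 L, a.1.2 • x ∈ 𝔔 ↔ x ∈ 𝔓) (d : bigGal ρ L) :
    a * d * a⁻¹ ∈ bigInertia ρ 𝔔 ↔ d ∈ bigInertia ρ 𝔓 := by
  have h1 : (a * d * a⁻¹).1.1 = a.1.1 * d.1.1 * a.1.1⁻¹ := rfl
  have h2 : (a * d * a⁻¹).1.2 = a.1.2 * d.1.2 * a.1.2⁻¹ := rfl
  have h3 : a.1.1 * d.1.1 * a.1.1⁻¹ = 1 ↔ d.1.1 = 1 := by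
    rw [mul_inv_eq_one]
    exact mul_eq_left
  constructor
  · rintro ⟨h4, h5⟩
    refine ⟨h3.1 (h1 ▸ h4), fun x => ?_⟩
    have h6 := h5 (a.1.2 • x)
    rw [h2, mul_smul, mul_smul, inv_smul_smul, ← smul_sub] at h6
    exact (h _).1 h6
  · rintro ⟨h4, h5⟩
    refine ⟨h1 ▸ h3.2 h4, fun x => ?_⟩
    have h6 := (h _).2 (h5 (a.1.2⁻¹ • x))
    rw [smul_sub, smul_inv_smul] at h6
    rw [h2, mul_smul, mul_smul]
    exact h6

theorem conj_decomp (𝔓 𝔔 : Ideal (𝓞 L)) (a : bigGal ρ L)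
    (h : ∀ x : 𝓞 L, a.1.2 • x ∈ 𝔔 ↔ x ∈ 𝔓) (d : bigGal ρ L) :
    a * d * a⁻¹ ∈ bigDecomp ρ 𝔔 ↔ d ∈ bigDecomp ρ 𝔓 := by
  have h1 : (a * d * a⁻¹).1.1 = a.1.1 * d.1.1 * a.1.1⁻¹ := rfl
  have h2 : (a * d * a⁻¹).1.2 = a.1.2 * d.1.2 * a.1.2⁻¹ := rfl
  have h3 : a.1.1 * d.1.1 * a.1.1⁻¹ = 1 ↔ d.1.1 = 1 := by
    rw [mul_inv_eq_one]
    exact mul_eq_left
  constructor
  · rintro ⟨h4, h5⟩
    refine ⟨h3.1 (h1 ▸ h4), fun x => ?_⟩
    have h6 := h5 (a.1.2 • x)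
    rw [h2, mul_smul, mul_smul, inv_smul_smul, h, h] at h6
    exact h6
  · rintro ⟨h4, h5⟩
    refine ⟨h1 ▸ h3.2 h4, fun x => ?_⟩
    have h6 := h5 (a.1.2⁻¹ • x)
    rw [← h, ← h (a.1.2⁻¹ • x), smul_inv_smul] at h6
    rw [h2, mul_smul, mul_smul]
    exact h6

/-- the action of an element of `bigGal` on the Tate module, as an equivalence -/
theorem exists_tateEquiv (hc : ∀ s t, c s t ≠ 0) (hc1 : ∀ s, c s 1 = 1) (hc2 : ∀ s, c 1 s = 1)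
    (a : bigGal ρ L) : ∃ e : VTate ℓ (Pts A L) ≃ₗ[ℚ_[ℓ]] VTate ℓ (Pts A L),
      ∀ d : bigGal ρ L, d.1.1 = 1 → ∀ x,
        tateHom 𝒯 ℓ (a * d * a⁻¹) (e x) = e (tateHom 𝒯 ℓ d x) := by
  have hz : ∀ s t, (c s t : ℚ_[ℓ]) ≠ 0 := fun s t => Int.cast_ne_zero.2 (hc s t)
  have hinj : Function.Injective (tateHom 𝒯 ℓ a) := by
    intro x y hxy
    have h1 := congrArg (fun f => f x) (tateHom_comp 𝒯 ℓ a⁻¹ a)
    have h2 := congrArg (fun f => f y) (tateHom_comp 𝒯 ℓ a⁻¹ a)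
    simp only [LinearMap.comp_apply, inv_mul_cancel, tateHom_one, LinearMap.smul_apply,
      LinearMap.id_apply] at h1 h2
    rw [hxy, h2] at h1
    exact (smul_right_injective _ (hz _ _) h1).symm
  have hsur : Function.Surjective (tateHom 𝒯 ℓ a) := by
    intro x
    have h1 := congrArg (fun f => f ((c a.1.1 (a⁻¹).1.1 : ℚ_[ℓ])⁻¹ • x)) (tateHom_comp 𝒯 ℓ a a⁻¹)
    simp only [LinearMap.comp_apply, mul_inv_cancel, tateHom_one, LinearMap.smul_apply,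
      LinearMap.id_apply] at h1
    rw [smul_inv_smul₀ (hz _ _)] at h1
    exact ⟨_, h1⟩
  refine ⟨LinearEquiv.ofBijective (tateHom 𝒯 ℓ a) ⟨hinj, hsur⟩, fun d hd x => ?_⟩
  have h0 : (a * d * a⁻¹).1.1 = 1 := by
    show a.1.1 * d.1.1 * a.1.1⁻¹ = 1
    rw [hd]
    simp
  have h1 := congrArg (fun f => f x) (tateHom_comp 𝒯 ℓ (a * d * a⁻¹) a)
  have h2 := congrArg (fun f => f x) (tateHom_comp 𝒯 ℓ a d)
  rw [h0, hc2, inv_mul_cancel_right, Int.cast_one, one_smul] at h1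
  rw [hd, hc1, Int.cast_one, one_smul] at h2
  exact h1.trans h2.symm

include 𝒯 in
/-- The invariant `splitRank` is unchanged under semilinear automorphisms. -/
theorem splitRank_eq (hc : ∀ s t, c s t ≠ 0) (hc1 : ∀ s, c s 1 = 1) (hc2 : ∀ s, c 1 s = 1)
    (𝔓 𝔔 : Ideal (𝓞 L)) (a : bigGal ρ L) (h : ∀ x : 𝓞 L, a.1.2 • x ∈ 𝔔 ↔ x ∈ 𝔓) :
    splitRank A ℓ 𝔓 = splitRank A ℓ 𝔔 := by
  obtain ⟨e, he⟩ := exists_tateEquiv 𝒯 ℓ hc hc1 hc2 a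
  unfold splitRank quotRank
  rw [ops_inertia 𝒯, ops_decomp 𝒯, ops_inertia 𝒯, ops_decomp 𝒯]
  refine quotInv_finrank e ?_ ?_ ?_ ?_
  · rintro _ ⟨d, hd, rfl⟩
    exact ⟨_, ⟨a * d * a⁻¹, (conj_inertia 𝔓 𝔔 a h d).2 hd, rfl⟩, he d hd.1⟩
  · rintro _ ⟨d, hd, rfl⟩
    have h1 : d = a * (a⁻¹ * d * a) * a⁻¹ := by group
    have h2 : a⁻¹ * d * a ∈ bigInertia ρ 𝔓 := by
      rw [← conj_inertia 𝔓 𝔔 a h, ← h1]
      exact hd
    refine ⟨_, ⟨_, h2, rfl⟩, fun x => ?_⟩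
    have h3 := he _ h2.1 x
    rw [← h1] at h3
    exact h3
  · rintro _ ⟨d, hd, rfl⟩
    exact ⟨_, ⟨a * d * a⁻¹, (conj_decomp 𝔓 𝔔 a h d).2 hd, rfl⟩, he d hd.1⟩
  · rintro _ ⟨d, hd, rfl⟩
    have h1 : d = a * (a⁻¹ * d * a) * a⁻¹ := by group
    have h2 : a⁻¹ * d * a ∈ bigDecomp ρ 𝔓 := by
      rw [← conj_decomp 𝔓 𝔔 a h, ← h1]
      exact hd
    refine ⟨_, ⟨_, h2, rfl⟩, fun x => ?_⟩
    have h3 := he _ h2.1 x
    rw [← h1] at h3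
    exact h3

include 𝒯 in
/-- At a place fixed by `P` the invariant `splitRank` is even, or the cocycle splits. -/
theorem splitRank_odd [CharZero K] [IsAlgClosure K L] [Finite P] (hP : IsPGroup 2 P)
    (hc : ∀ s t, c s t ≠ 0) (hc1 : ∀ s, c s 1 = 1) (hc2 : ∀ s, c 1 s = 1)
    (p : Ideal (𝓞 K)) (hp : ∀ s x, ρ s • x ∈ p ↔ x ∈ p) (𝔓 : Ideal (𝓞 L)) [𝔓.IsPrime]
    (h𝔓 : 𝔓.comap (algebraMap (𝓞 K) (𝓞 L)) = p) (hodd : Odd (splitRank A ℓ 𝔓)) :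
    Splits ℚ_[ℓ] c := by
  let N : Subgroup (bigGal ρ L) :=
    { carrier := {a | ∀ x : 𝓞 L, a.1.2 • x ∈ 𝔓 ↔ x ∈ 𝔓}
      one_mem' := fun x => by
        show (1 : RingAut L) • x ∈ 𝔓 ↔ _
        rw [one_smul]
      mul_mem' := fun {a b} ha hb x => by
        show (a.1.2 * b.1.2) • x ∈ 𝔓 ↔ _
        rw [mul_smul, ha, hb]
      inv_mem' := fun {a} ha x => by
        show (a.1.2⁻¹) • x ∈ 𝔓 ↔ _
        rw [← ha, smul_inv_smul] }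
  let π : N →* P := ((MonoidHom.fst P (RingAut L)).comp (bigGal ρ L).subtype).comp N.subtype
  have hπ : Function.Surjective π := by
    intro s
    obtain ⟨a, ha, ha2⟩ := exists_big_prime (ρ := ρ) s p p (hp s) 𝔓 𝔓 h𝔓 h𝔓
    exact ⟨⟨a, ha2⟩, ha⟩
  let I : Subgroup N :=
    { carrier := {a | a.1 ∈ bigInertia ρ 𝔓}
      one_mem' := ⟨rfl, fun x => by
        show (1 : RingAut L) • x - x ∈ 𝔓
        rw [one_smul, sub_self]
        exact 𝔓.zero_mem⟩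
      mul_mem' := fun {a b} ha hb => by
        refine ⟨?_, fun x => ?_⟩
        · show a.1.1.1 * b.1.1.1 = 1
          rw [ha.1, hb.1, mul_one]
        · show (a.1.1.2 * b.1.1.2) • x - x ∈ 𝔓
          have h1 := ha.2 (b.1.1.2 • x)
          have h2 := hb.2 x
          rw [mul_smul]
          have := 𝔓.add_mem h1 h2
          rwa [sub_add_sub_cancel] at this
      inv_mem' := fun {a} ha => by
        refine ⟨?_, fun x => ?_⟩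
        · show a.1.1.1⁻¹ = 1
          rw [ha.1, inv_one]
        · show (a.1.1.2⁻¹) • x - x ∈ 𝔓
          have h1 := ha.2 (a.1.1.2⁻¹ • x)
          rw [smul_inv_smul] at h1
          have := 𝔓.neg_mem h1
          rwa [neg_sub] at this }
  have hI : I.Normal := ⟨fun i hi a => (conj_inertia 𝔓 𝔓 a.1 a.2 i.1).2 hi⟩
  refine quotInv_odd hP π hπ c (fun s t => Int.cast_ne_zero.2 (hc s t)) hc1 hc2
    (fun a => tateHom 𝒯 ℓ a.1) (tateHom_one 𝒯 ℓ) (fun a b => tateHom_comp 𝒯 ℓ a.1 b.1) I hI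
    (fun i hi => hi.1) (ops A ℓ (inertia K 𝔓)) (ops A ℓ (decomp K 𝔓)) ?_ ?_ hodd
  · rw [ops_inertia 𝒯]
    ext f
    constructor
    · rintro ⟨a, ha, rfl⟩
      refine ⟨⟨a, fun x => ?_⟩, ha, rfl⟩
      have h1 := ha.2 x
      constructor
      · intro h2
        have := 𝔓.sub_mem h2 h1
        rwa [sub_sub_cancel] at this
      · intro h2
        have := 𝔓.add_mem h1 h2
        rwa [sub_add_cancel] at this
    · rintro ⟨a, ha, rfl⟩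
      exact ⟨a.1, ha, rfl⟩
  · rw [ops_decomp 𝒯]
    ext f
    constructor
    · rintro ⟨a, ha, rfl⟩
      exact ⟨⟨a, ha.2⟩, ha.1, rfl⟩
    · rintro ⟨a, ha, rfl⟩
      exact ⟨a.1, ⟨ha, a.2⟩, rfl⟩

end act

end Pool.Agent.H.MP_ac3185_nt
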