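import Pool.Agent.H.MP_ac3185_nt.AboveDef
import Pool.Agent.H.MP_ac3185_nt.Places
import Pool.Agent.H.MP_ac3185_nt.Comb

/-! Local root numbers and the main theorem. -/

set_option autoImplicit false

open CategoryTheory AlgebraicGeometry NumberField IsDedekindDomain
open scoped MonObj Pointwise

namespace Pool.Agent.H.MP_ac3185_nt

universe u

section defs

variable {K : Type u} [Field K] [NumberField K]

/-- `A` is semistable at the finite place `v` (Grothendieck's criterion): for every prime `𝔓` of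
the ring of integers of an algebraic closure of `K` above `v`, every prime number `ℓ` not in `v`
and every `g` in the inertia group of `𝔓`, one has `(g - 1) ^ 2 = 0` on `V_ℓ(A)`. -/
def SemistableAt (A : Over (Spec (.of K))) [GrpObj A] [IsAbVar A]
    (v : HeightOneSpectrum (𝓞 K)) : Prop :=
  ∀ 𝔓 : Ideal (𝓞 (AlgebraicClosure K)), Above 𝔓 v → ∀ (ℓ : ℕ) [Fact ℓ.Prime], Away ℓ v →
    ∀ g ∈ inertia K 𝔓, IsUnip (galV A ℓ g)

/-- Three standard properties of the local root numbers `w v = W(A / K_v)` of an abelian variety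
`A` over a number field `K` at the finite places `v`; here `𝔓 v` is a prime above `v` of the ring
of integers of an algebraic closure of `K`. -/
structure IsRootNumber (A : Over (Spec (.of K))) [GrpObj A] [IsAbVar A]
    (𝔓 : HeightOneSpectrum (𝓞 K) → Ideal (𝓞 (AlgebraicClosure K)))
    (w : HeightOneSpectrum (𝓞 K) → ℤ) : Prop where
  /-- root numbers of abelian varieties are signs -/
  sign : ∀ v, w v = 1 ∨ w v = -1
  /-- the root number at `v` depends only on the action of the decomposition group on the Tate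
  modules (transport of structure along an automorphism `σ` of the algebraic closure which maps
  `K` to `K` and `v` to `v'`) -/
  transport : ∀ (v v' : HeightOneSpectrum (𝓞 K)) (τ : RingAut K)
    (σ : RingAut (AlgebraicClosure K)),
    (∀ x : K, σ (algebraMap K (AlgebraicClosure K) x) = algebraMap K (AlgebraicClosure K) (τ x)) →
    (∀ x : 𝓞 (AlgebraicClosure K), autInt σ x ∈ 𝔓 v' ↔ x ∈ 𝔓 v) →
    (∀ (ℓ : ℕ) [Fact ℓ.Prime], Transports A ℓ σ) → w v = w v'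
  /-- the root number of a semistable abelian variety is `(-1) ^ r`, where `r` is the rank of the
  split part of the torus of the reduction -/
  semistable : ∀ v, SemistableAt A v → ∀ (ℓ : ℕ) [Fact ℓ.Prime], Away ℓ v →
    w v = (-1) ^ splitRank A ℓ (𝔓 v)

/-- The global root number of an abelian variety of dimension `g` over `K` with root numbers `w v`
at the finite places: each infinite place contributes `(-1) ^ g`. -/
noncomputable def globalSign (K : Type u) [Field K] [NumberField K] (g : ℕ)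
    (w : HeightOneSpectrum (𝓞 K) → ℤ) : ℤ :=
  (-1) ^ (g * Fintype.card (InfinitePlace K)) * ∏ᶠ v, w v

open Classical in
/-- the explicit local sign of a semistable abelian variety, computed with the `ℓ`-adic Tate
module for one of two primes `ℓ` -/
noncomputable def signAt (A : Over (Spec (.of K))) [GrpObj A] [IsAbVar A] (ℓ₁ ℓ₂ : ℕ)
    [Fact ℓ₁.Prime] [Fact ℓ₂.Prime]
    (𝔓 : HeightOneSpectrum (𝓞 K) → Ideal (𝓞 (AlgebraicClosure K)))
    (v : HeightOneSpectrum (𝓞 K)) : ℤ :=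
  if Away ℓ₁ v then (-1) ^ splitRank A ℓ₁ (𝔓 v) else (-1) ^ splitRank A ℓ₂ (𝔓 v)

/-- The finite place `v` of `K` is fixed by the group `P`. -/
def FixedPlace {P : Type*} [Group P] (ρ : P →* RingAut K) (v : HeightOneSpectrum (𝓞 K)) : Prop :=
  ∀ (s : P) (x : 𝓞 K), autInt (ρ s) x ∈ v.asIdeal ↔ x ∈ v.asIdeal

end defs

section act

variable {K : Type u} [Field K] [NumberField K]

/-- automorphisms of `K` act on the finite places -/
instance placeAction : MulAction (RingAut K) (HeightOneSpectrum (𝓞 K)) where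
  smul s v := ⟨s • v.asIdeal, Ideal.IsPrime.smul s, fun h => v.ne_bot (by
    have := congrArg (fun I => s⁻¹ • I) h
    simpa using this)⟩
  one_smul v := HeightOneSpectrum.ext (one_smul _ v.asIdeal)
  mul_smul s t v := HeightOneSpectrum.ext (mul_smul s t v.asIdeal)

theorem place_smul_mem (s : RingAut K) (v : HeightOneSpectrum (𝓞 K)) (x : 𝓞 K) :
    s • x ∈ (s • v).asIdeal ↔ x ∈ v.asIdeal := Ideal.smul_mem_pointwise_smul_iff

theorem natCast_mem_smul (s : RingAut K) (v : HeightOneSpectrum (𝓞 K)) (n : ℕ) :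
    (n : 𝓞 K) ∈ (s • v).asIdeal ↔ (n : 𝓞 K) ∈ v.asIdeal := by
  rw [← place_smul_mem s v]
  have : s • (n : 𝓞 K) = n := map_natCast (MulSemiringAction.toRingHom (RingAut K) (𝓞 K) s) n
  rw [this]

theorem not_both (v : HeightOneSpectrum (𝓞 K)) {a b : ℕ} (ha : a.Prime) (hb : b.Prime)
    (hab : a ≠ b) (h : (a : 𝓞 K) ∈ v.asIdeal) : (b : 𝓞 K) ∉ v.asIdeal := by
  intro h'
  have hc : IsCoprime (a : ℤ) (b : ℤ) := Nat.isCoprime_iff_coprime.2 ((Nat.coprime_primes ha hb).2 hab)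
  obtain ⟨x, y, hxy⟩ := hc
  apply v.isPrime.ne_top
  rw [Ideal.eq_top_iff_one]
  have : (1 : 𝓞 K) = (x : 𝓞 K) * a + (y : 𝓞 K) * b := by
    have := congrArg (fun z : ℤ => (z : 𝓞 K)) hxy
    push_cast at this
    exact this.symm
  rw [this]
  exact add_mem (Ideal.mul_mem_left _ _ h) (Ideal.mul_mem_left _ _ h')

end act

section main

variable {K : Type u} [Field K] [NumberField K] {P : Type*} [Group P] [Finite P]
  (hP : IsPGroup 2 P) (ρ : P →* RingAut K) (A : Over (Spec (.of K))) [GrpObj A] [IsAbVar A]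
  {c : P → P → ℤ} (𝒯 : SemiSystem ρ A c) (hc : ∀ s t, c s t ≠ 0) (hc1 : ∀ s, c s 1 = 1)
  (hc2 : ∀ s, c 1 s = 1)

include hP 𝒯 hc in
theorem rank_even (ℓ : ℕ) [Fact ℓ.Prime] (hℓ : ¬ Splits ℚ_[ℓ] c) :
    Even (Module.finrank ℤ (Pts A K)) := by
  rw [← Nat.not_odd_iff_even]
  intro hodd
  apply hℓ
  let a : P → bigGal ρ K := fun s => ⟨(s, ρ s), fun x => rfl⟩
  have ha : ∀ s t, a s * a t = a (s * t) := fun s t => by
    apply Subtype.ext
    exact Prod.ext rfl (map_mul ρ s t).symm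
  have ha1 : a 1 = kerBig ρ (1 : K ≃ₐ[K] K) := by
    apply Subtype.ext
    exact Prod.ext rfl (map_one ρ)
  refine Splits.map (algebraMap ℚ ℚ_[ℓ]) (rank_odd hP c hc (fun s => bigHom 𝒯 (a s)) ?_ ?_ hodd)
  · rw [← galHom_one (A := A) (L := K)]
    exact bigHom_gal 𝒯 (a 1) 1 rfl (fun x => by
      show ρ 1 x = x
      rw [map_one]; rfl)
  · intro s t
    rw [bigHom_comp, ha]

variable (𝔓 : HeightOneSpectrum (𝓞 K) → Ideal (𝓞 (AlgebraicClosure K)))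
  (h𝔓 : ∀ v, (𝔓 v).IsPrime)
  (h𝔓' : ∀ v, (𝔓 v).comap (algebraMap (𝓞 K) (𝓞 (AlgebraicClosure K))) = v.asIdeal)

include h𝔓 h𝔓' in
theorem exists_big_place (s : P) (v : HeightOneSpectrum (𝓞 K)) :
    ∃ a : bigGal ρ (AlgebraicClosure K), a.1.1 = s ∧
      ∀ x : 𝓞 (AlgebraicClosure K), a.1.2 • x ∈ 𝔓 (ρ s • v) ↔ x ∈ 𝔓 v := by
  have h1 := h𝔓 v
  have h2 := h𝔓 (ρ s • v)
  exact exists_big_prime s v.asIdeal (ρ s • v).asIdeal (place_smul_mem (ρ s) v) (𝔓 v)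
    (𝔓 (ρ s • v)) (h𝔓' v) (h𝔓' _)

include 𝒯 hc hc1 hc2 h𝔓 h𝔓' in
theorem splitRank_smul (ℓ : ℕ) [Fact ℓ.Prime] (s : P) (v : HeightOneSpectrum (𝓞 K)) :
    splitRank A ℓ (𝔓 (ρ s • v)) = splitRank A ℓ (𝔓 v) := by
  obtain ⟨a, _, ha2⟩ := exists_big_place ρ 𝔓 h𝔓 h𝔓' s v
  exact (splitRank_eq 𝒯 ℓ hc hc1 hc2 (𝔓 v) (𝔓 (ρ s • v)) a ha2).symm

include hP 𝒯 hc hc1 hc2 h𝔓 h𝔓' in
theorem splitRank_fixed (ℓ : ℕ) [Fact ℓ.Prime] (hℓ : ¬ Splits ℚ_[ℓ] c)
    (v : HeightOneSpectrum (𝓞 K)) (hv : ∀ s, ρ s • v = v) : Even (splitRank A ℓ (𝔓 v)) := by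
  rw [← Nat.not_odd_iff_even]
  intro hodd
  apply hℓ
  have h1 := h𝔓 v
  refine splitRank_odd 𝒯 ℓ hP hc hc1 hc2 v.asIdeal (fun s x => ?_) (𝔓 v) (h𝔓' v) hodd
  have := place_smul_mem (ρ s) v x
  rwa [hv s] at this

include hP 𝒯 hc hc1 hc2 h𝔓 h𝔓' in
theorem prod_signAt (ℓ₁ ℓ₂ : ℕ) [Fact ℓ₁.Prime] [Fact ℓ₂.Prime] (h₁ : ¬ Splits ℚ_[ℓ₁] c)
    (h₂ : ¬ Splits ℚ_[ℓ₂] c) : ∏ᶠ v, signAt A ℓ₁ ℓ₂ 𝔓 v = 1 := by
  let _ : MulAction P (HeightOneSpectrum (𝓞 K)) := MulAction.compHom _ ρ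
  refine finprod_sign hP _ (fun v => ?_) (fun s v => ?_) (fun v hv => ?_)
  · unfold signAt
    split_ifs
    · exact neg_one_pow_eq_or ℤ _
    · exact neg_one_pow_eq_or ℤ _
  · show signAt A ℓ₁ ℓ₂ 𝔓 (ρ s • v) = _
    unfold signAt Away
    rw [natCast_mem_smul, splitRank_smul ρ A 𝒯 hc hc1 hc2 𝔓 h𝔓 h𝔓' ℓ₁,
      splitRank_smul ρ A 𝒯 hc hc1 hc2 𝔓 h𝔓 h𝔓' ℓ₂]
  · unfold signAt
    split_ifs
    · exact Even.neg_one_pow (splitRank_fixed hP ρ A 𝒯 hc hc1 hc2 𝔓 h𝔓 h𝔓' ℓ₁ h₁ v hv)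
    · exact Even.neg_one_pow (splitRank_fixed hP ρ A 𝒯 hc hc1 hc2 𝔓 h𝔓 h𝔓' ℓ₂ h₂ v hv)

include hP 𝒯 hc hc1 hc2 h𝔓 h𝔓' in
theorem prod_rootNumber (ℓ₁ ℓ₂ : ℕ) [Fact ℓ₁.Prime] [Fact ℓ₂.Prime] (hne : ℓ₁ ≠ ℓ₂)
    (h₁ : ¬ Splits ℚ_[ℓ₁] c) (h₂ : ¬ Splits ℚ_[ℓ₂] c) (w : HeightOneSpectrum (𝓞 K) → ℤ)
    (hw : IsRootNumber A 𝔓 w) (hss : ∀ v, (∀ s, ρ s • v = v) → SemistableAt A v) :
    ∏ᶠ v, w v = 1 := by
  let _ : MulAction P (HeightOneSpectrum (𝓞 K)) := MulAction.compHom _ ρ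
  refine finprod_sign hP _ hw.sign (fun s v => ?_) (fun v hv => ?_)
  · show w (ρ s • v) = _
    obtain ⟨a, rfl, ha2⟩ := exists_big_place ρ 𝔓 h𝔓 h𝔓' s v
    refine (hw.transport v (ρ a.1.1 • v) (ρ a.1.1) a.1.2 (big_commutes a) ha2
      fun ℓ _ => ?_).symm
    obtain ⟨e, he⟩ := exists_tateEquiv 𝒯 ℓ hc hc1 hc2 a
    refine ⟨e, fun g g' hg x => ?_⟩
    have h3 : kerBig ρ g' = a * kerBig ρ g * a⁻¹ := by
      apply Subtype.ext
      refine Prod.ext ?_ ?_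
      · show (1 : P) = a.1.1 * 1 * a.1.1⁻¹
        simp
      · ext x
        show g' x = a.1.2 (g (a.1.2⁻¹ x))
        rw [← hg]
        congr 1
        show x = (a.1.2 * a.1.2⁻¹) x
        rw [mul_inv_cancel]
        rfl
    have h4 := he (kerBig ρ g) rfl x
    rw [← h3, tateHom_ker, tateHom_ker] at h4
    exact h4
  · have hv' : ∀ s, ρ s • v = v := hv
    have key : ∀ (ℓ : ℕ) [Fact ℓ.Prime], ¬ Splits ℚ_[ℓ] c → (ℓ : 𝓞 K) ∉ v.asIdeal → w v = 1 := by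
      intro ℓ _ hℓ hℓv
      rw [hw.semistable v (hss v hv') ℓ hℓv]
      exact Even.neg_one_pow (splitRank_fixed hP ρ A 𝒯 hc hc1 hc2 𝔓 h𝔓 h𝔓' ℓ hℓ v hv')
    by_cases h : (ℓ₁ : 𝓞 K) ∈ v.asIdeal
    · exact key ℓ₂ h₂ (not_both v (Fact.out : ℓ₁.Prime) (Fact.out : ℓ₂.Prime) hne h)
    · exact key ℓ₁ h₁ h

end main

end Pool.Agent.H.MP_ac3185_nt
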