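import Pool.Agent.H.MP_ac3185_nt.PointsDefs
import Pool.Agent.H.MP_ac3185_nt.ProjDefs
import Pool.Agent.H.MP_ac3185_nt.Trans

/-! Inertia and decomposition groups, the action of the semilinear endomorphisms on the Tate
module, local signs. -/

set_option autoImplicit false

open CategoryTheory AlgebraicGeometry NumberField
open scoped MonObj Pointwise

namespace Pool.Agent.H.MP_ac3185_nt

universe u

section defs

variable {K : Type u} [Field K] {L : Type u} [Field L] [Algebra K L]

/-- The action of a `K`-automorphism of `L` on the ring of integers of `L`. -/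
noncomputable def galInt (g : L ≃ₐ[K] L) (x : 𝓞 L) : 𝓞 L := g • x

/-- The action of an automorphism of `L` on the ring of integers of `L`. -/
noncomputable def autInt (g : RingAut L) (x : 𝓞 L) : 𝓞 L := g • x

/-- The inertia group of a prime ideal `𝔓` of the ring of integers of `L`. -/
def inertia (K : Type u) [Field K] {L : Type u} [Field L] [Algebra K L] (𝔓 : Ideal (𝓞 L)) :
    Set (L ≃ₐ[K] L) := {g | ∀ x : 𝓞 L, galInt g x - x ∈ 𝔓}

/-- The decomposition group of a prime ideal `𝔓` of the ring of integers of `L`. -/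
def decomp (K : Type u) [Field K] {L : Type u} [Field L] [Algebra K L] (𝔓 : Ideal (𝓞 L)) :
    Set (L ≃ₐ[K] L) := {g | ∀ x : 𝓞 L, galInt g x ∈ 𝔓 ↔ x ∈ 𝔓}

/-- The operator by which a `K`-automorphism `g` of `L` acts on `V_ℓ(A(L))`. -/
noncomputable def galV (A : Over (Spec (.of K))) [GrpObj A] [IsAbVar A] (ℓ : ℕ) [Fact ℓ.Prime]
    (g : L ≃ₐ[K] L) : VTate ℓ (Pts A L) →ₗ[ℚ_[ℓ]] VTate ℓ (Pts A L) := VTate.map (galHom A g)

/-- The operators by which a set `S` of automorphisms of `L` over `K` acts on `V_ℓ(A(L))`. -/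
def ops (A : Over (Spec (.of K))) [GrpObj A] [IsAbVar A] (ℓ : ℕ) [Fact ℓ.Prime]
    (S : Set (L ≃ₐ[K] L)) : Set (VTate ℓ (Pts A L) →ₗ[ℚ_[ℓ]] VTate ℓ (Pts A L)) :=
  galV A ℓ '' S

/-- The dimension of `(V / V^I)^D`, where `V = V_ℓ(A(L))` and `I ≤ D` are the inertia and
decomposition groups of `𝔓`. For semistable `A` it is the rank of the split part of the torus of
the reduction of `A`. -/
noncomputable def splitRank (A : Over (Spec (.of K))) [GrpObj A] [IsAbVar A] (ℓ : ℕ)
    [Fact ℓ.Prime] (𝔓 : Ideal (𝓞 L)) : ℕ :=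
  quotRank (ops A ℓ (inertia K 𝔓)) (ops A ℓ (decomp K 𝔓))

/-- There is an automorphism `e` of the vector space `V_ℓ(A(L))` which transports the action of
every `K`-automorphism `g` of `L` to the action of `σ g σ⁻¹`. -/
def Transports (A : Over (Spec (.of K))) [GrpObj A] [IsAbVar A] (ℓ : ℕ) [Fact ℓ.Prime]
    (σ : RingAut L) : Prop :=
  ∃ e : VTate ℓ (Pts A L) ≃ₗ[ℚ_[ℓ]] VTate ℓ (Pts A L), ∀ g g' : L ≃ₐ[K] L,
    (∀ x, g' (σ x) = σ (g x)) → Carries e (galV A ℓ g) (galV A ℓ g')

end defs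

end Pool.Agent.H.MP_ac3185_nt
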