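import Pool.Agent.H.MP_ac3185_nt.Tate

/-! Points of abelian varieties, Galois action. -/

set_option autoImplicit false

open CategoryTheory AlgebraicGeometry MonoidalCategory CartesianMonoidalCategory MonObj

namespace Pool.Agent.H.MP_ac3185_nt

universe u

section basic

variable {K : Type u} [Field K]

/-- An abelian variety over the field `K`: a proper geometrically integral group scheme. -/
class IsAbVar (A : Over (Spec (.of K))) [GrpObj A] : Prop where
  proper : IsProper A.hom
  geometricallyIntegral : GeometricallyIntegral A.hom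

instance (A : Over (Spec (.of K))) [GrpObj A] [h : IsAbVar A] : IsCommMonObj A :=
  haveI := h.proper
  haveI := h.geometricallyIntegral
  isCommMonObj_of_isProper_of_geometricallyIntegral A

/-- `Spec L` as a scheme over `Spec K`. -/
noncomputable abbrev specOver (K : Type u) [Field K] (L : Type u) [Field L] [Algebra K L] :
    Over (Spec (.of K)) :=
  Over.mk (Spec.map (CommRingCat.ofHom (algebraMap K L)))

/-- The group `A(L)`, written additively. -/
def Pts (A : Over (Spec (.of K))) (L : Type u) [Field L] [Algebra K L] : Type u :=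
  Additive (specOver K L ⟶ A)

noncomputable instance Pts.addCommGroup (A : Over (Spec (.of K))) [GrpObj A] [IsAbVar A]
    (L : Type u) [Field L] [Algebra K L] : AddCommGroup (Pts A L) :=
  Additive.addCommGroup (α := specOver K L ⟶ A)

theorem specGal_w {L : Type u} [Field L] [Algebra K L] (g : L ≃ₐ[K] L) :
    Spec.map (CommRingCat.ofHom (g : L →+* L)) ≫
      Spec.map (CommRingCat.ofHom (algebraMap K L)) =
        Spec.map (CommRingCat.ofHom (algebraMap K L)) := by
  rw [← Spec.map_comp]
  congr 1
  ext x
  exact g.commutes x

/-- The morphism `Spec L → Spec L` over `Spec K` given by a `K`-automorphism of `L`. -/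
noncomputable def specGal {L : Type u} [Field L] [Algebra K L] (g : L ≃ₐ[K] L) :
    specOver K L ⟶ specOver K L :=
  Over.homMk (Spec.map (CommRingCat.ofHom (g : L →+* L))) (specGal_w g)

/-- the composition of a point with `specGal` -/
noncomputable def galFn (A : Over (Spec (.of K))) {L : Type u} [Field L]
    [Algebra K L] (g : L ≃ₐ[K] L) (x : Pts A L) : Pts A L :=
  Additive.ofMul (specGal g ≫ (Additive.toMul x : specOver K L ⟶ A))

theorem galFn_zero (A : Over (Spec (.of K))) [GrpObj A] [IsAbVar A] {L : Type u} [Field L]
    [Algebra K L] (g : L ≃ₐ[K] L) : galFn A g 0 = 0 := by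
  show Additive.ofMul (specGal g ≫ (1 : specOver K L ⟶ A)) = Additive.ofMul 1
  rw [MonObj.comp_one]

theorem galFn_add (A : Over (Spec (.of K))) [GrpObj A] [IsAbVar A] {L : Type u} [Field L]
    [Algebra K L] (g : L ≃ₐ[K] L) (x y : Pts A L) :
    galFn A g (x + y) = galFn A g x + galFn A g y := by
  have h : specGal g ≫ ((Additive.toMul x : specOver K L ⟶ A) * Additive.toMul y) =
      (specGal g ≫ Additive.toMul x) * (specGal g ≫ Additive.toMul y) := MonObj.comp_mul _ _ _
  exact congrArg Additive.ofMul h

/-- The action of a `K`-automorphism of `L` on `A(L)`. -/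
noncomputable def galHom (A : Over (Spec (.of K))) [GrpObj A] [IsAbVar A] {L : Type u} [Field L]
    [Algebra K L] (g : L ≃ₐ[K] L) : Pts A L →+ Pts A L where
  toFun := galFn A g
  map_zero' := galFn_zero A g
  map_add' := galFn_add A g

/-- The morphism `Spec (s⁻¹) : Spec K → Spec K`. -/
noncomputable abbrev specInv (s : RingAut K) : Spec (.of K) ⟶ Spec (.of K) :=
  Spec.map (CommRingCat.ofHom (s.symm : K →+* K))

end basic

end Pool.Agent.H.MP_ac3185_nt
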