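import Pool.Agent.H.MP_ac3185_nt.Det

/-! An integer which is not a square is not a square in `ℚ_ℓ` for infinitely many `ℓ`. -/

set_option autoImplicit false

open NumberTheorySymbols

namespace Pool.Agent.H.MP_ac3185_nt

theorem odd_of_modEq {n r k : ℕ} (h : n ≡ r [MOD 8 * k]) : n % 8 = r % 8 :=
  Nat.ModEq.of_mul_right k h

theorem exists_aux1 (p a' : ℕ) (hp : p.Prime) (hp2 : p ≠ 2) (hpa : p.Coprime a') (ha' : a' ≠ 0)
    (ε : ℤ) (hε : ε = 1 ∨ ε = -1) (N : ℕ) (hN : N ≠ 0) :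
    ∃ n : ℕ, Odd n ∧ n.Coprime N ∧ J(ε * ((p * a' : ℕ) : ℤ) | n) = -1 := by
  have hpF : Fact p.Prime := ⟨hp⟩
  set k := N.factorization p with hk
  set N₁ := N / p ^ k with hN₁
  have h1 : p.Coprime N₁ := Nat.coprime_ordCompl hp hN
  have h2 : p ^ k * N₁ = N := Nat.ordProj_mul_ordCompl_eq_self N p
  obtain ⟨u, hu⟩ := FiniteField.exists_nonsquare (F := ZMod p) (by
    rw [ZMod.ringChar_zmod_n]
    exact hp2)
  have hp8 : p.Coprime 8 := by
    have : p.Coprime 2 := (Nat.coprime_primes hp Nat.prime_two).2 hp2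
    exact Nat.Coprime.pow_right 3 this
  have hco : (8 * (a' * N₁)).Coprime p :=
    Nat.Coprime.symm (Nat.Coprime.mul_right hp8 (Nat.Coprime.mul_right hpa h1))
  obtain ⟨n, hn1, hn2⟩ := Nat.chineseRemainder hco 1 u.val
  have hn8 : n % 8 = 1 := odd_of_modEq hn1
  have hnodd : Odd n := Nat.odd_iff.2 (by omega)
  have hnN₁ : n.Coprime N₁ := by
    have : n ≡ 1 [MOD N₁] := by
      have := hn1
      rw [← mul_assoc] at this
      exact Nat.ModEq.of_mul_left _ this
    rw [Nat.Coprime, this.gcd_eq]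
    simp
  have hcast : (n : ZMod p) = u := by
    have := (ZMod.natCast_eq_natCast_iff _ _ _).2 hn2
    rw [this]
    exact ZMod.natCast_zmod_val u
  have hnp : n.Coprime p := by
    rw [Nat.coprime_comm, Nat.Prime.coprime_iff_not_dvd hp]
    intro hdvd
    apply hu
    rw [← hcast, (ZMod.natCast_eq_zero_iff _ _).2 hdvd]
    exact ⟨0, by simp⟩
  refine ⟨n, hnodd, ?_, ?_⟩
  · rw [← h2]
    exact Nat.Coprime.mul_right (Nat.Coprime.pow_right _ hnp) hnN₁
  · have e1 : ε * ((p * a' : ℕ) : ℤ) = (p : ℤ) * (ε * a') := by push_cast; ring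
    rw [e1, jacobiSym.mul_left]
    have e2 : J((p : ℤ) | n) = -1 := by
      rw [jacobiSym.quadratic_reciprocity_one_mod_four' (hp.odd_of_ne_two hp2) (by omega)]
      rw [ZMod.nonsquare_iff_jacobiSym_eq_neg_one]
      push_cast
      rwa [hcast]
    have e3 : J(ε * (a' : ℤ) | n) = 1 := by
      rw [jacobiSym.mod_right _ hnodd]
      have e4 : (ε * (a' : ℤ)).natAbs = a' := by
        rw [Int.natAbs_mul]
        rcases hε with h | h <;> rw [h] <;> simp
      have e5 : n % (4 * a') = 1 := by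
        have e6 : n ≡ 1 [MOD 4 * a'] := by
          have e7 : 8 * (a' * N₁) = 4 * a' * (2 * N₁) := by ring
          rw [e7] at hn1
          exact Nat.ModEq.of_mul_right _ hn1
        have e8 : 1 < 4 * a' := by
          have := Nat.pos_of_ne_zero ha'
          omega
        rw [Nat.ModEq, Nat.mod_eq_of_lt e8] at e6
        exact e6
      rw [e4, e5, jacobiSym.one_right]
    rw [e2, e3]
    norm_num

theorem exists_aux2 (r : ℕ) (hr : r = 3 ∨ r = 5) (N : ℕ) (hN : N ≠ 0) :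
    ∃ n : ℕ, Odd n ∧ n.Coprime N ∧ n % 8 = r := by
  set k := N.factorization 2 with hk
  set N₁ := N / 2 ^ k with hN₁
  have h1 : Nat.Coprime 2 N₁ := Nat.coprime_ordCompl Nat.prime_two hN
  have h2 : 2 ^ k * N₁ = N := Nat.ordProj_mul_ordCompl_eq_self N 2
  have hco : Nat.Coprime 8 N₁ := by
    have := Nat.Coprime.pow_left 3 h1
    simpa using this
  obtain ⟨n, hn1, hn2⟩ := Nat.chineseRemainder hco r 1
  have hn8 : n % 8 = r := by
    rw [Nat.ModEq] at hn1
    rw [hn1]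
    rcases hr with h | h <;> rw [h]
  have hnodd : Odd n := Nat.odd_iff.2 (by omega)
  refine ⟨n, hnodd, ?_, hn8⟩
  rw [← h2]
  refine Nat.Coprime.mul_right (Nat.Coprime.pow_right _ ?_) ?_
  · exact Nat.coprime_two_right.2 hnodd
  · rw [Nat.Coprime, hn2.gcd_eq]
    simp

theorem exists_aux (a : ℕ) (ha : Squarefree a) (ε : ℤ) (hε : ε = 1 ∨ ε = -1)
    (h : ε * (a : ℤ) ≠ 1) (N : ℕ) (hN : N ≠ 0) :
    ∃ n : ℕ, Odd n ∧ n.Coprime N ∧ J(ε * (a : ℤ) | n) = -1 := by
  have ha0 : a ≠ 0 := ha.ne_zero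
  by_cases hp : ∃ p, p.Prime ∧ p ≠ 2 ∧ p ∣ a
  · obtain ⟨p, hp, hp2, a', rfl⟩ := hp
    rw [Nat.squarefree_mul_iff] at ha
    exact exists_aux1 p a' hp hp2 ha.1 (by
      rintro rfl
      simp at ha0) ε hε N hN
  · push Not at hp
    have h12 : a = 1 ∨ a = 2 := by
      by_cases h1 : a = 1
      · exact Or.inl h1
      · right
        obtain ⟨q, hq, hqa⟩ := Nat.exists_prime_and_dvd h1
        have hq2 : q = 2 := by
          by_contra hne
          exact hp q hq hne hqa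
        subst hq2
        obtain ⟨a', rfl⟩ := hqa
        rw [Nat.squarefree_mul_iff] at ha
        by_cases h3 : a' = 1
        · rw [h3]
        · exfalso
          obtain ⟨q, hq', hqa'⟩ := Nat.exists_prime_and_dvd h3
          have hq2 : q = 2 := by
            by_contra hne
            exact hp q hq' hne (Dvd.dvd.mul_left hqa' 2)
          subst hq2
          exact (Nat.Prime.coprime_iff_not_dvd Nat.prime_two).1 ha.1 hqa'
    rcases h12 with rfl | rfl
    · rcases hε with rfl | rfl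
      · simp at h
      · obtain ⟨n, h1, h2, h3⟩ := exists_aux2 3 (Or.inl rfl) N hN
        refine ⟨n, h1, h2, ?_⟩
        rw [jacobiSym.mod_right _ h1]
        have : n % (4 * (-1 * ((1 : ℕ) : ℤ)).natAbs) = 3 := by
          simp
          omega
        rw [this]
        norm_num
    · rcases hε with rfl | rfl
      · obtain ⟨n, h1, h2, h3⟩ := exists_aux2 3 (Or.inl rfl) N hN
        refine ⟨n, h1, h2, ?_⟩
        rw [jacobiSym.mod_right _ h1]
        have : n % (4 * (1 * ((2 : ℕ) : ℤ)).natAbs) = 3 := by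
          simp
          omega
        rw [this]
        norm_num
      · obtain ⟨n, h1, h2, h3⟩ := exists_aux2 5 (Or.inr rfl) N hN
        refine ⟨n, h1, h2, ?_⟩
        rw [jacobiSym.mod_right _ h1]
        have : n % (4 * (-1 * ((2 : ℕ) : ℤ)).natAbs) = 5 := by
          simp
          omega
        rw [this]
        norm_num

theorem exists_jacobi (m : ℤ) (hm : ¬ IsSquare m) (N : ℕ) (hN : N ≠ 0) :
    ∃ n : ℕ, Odd n ∧ n.Coprime N ∧ J(m | n) = -1 := by
  have hm0 : m ≠ 0 := by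
    rintro rfl
    exact hm ⟨0, by simp⟩
  obtain ⟨a, b, hab, hsq⟩ := Nat.sq_mul_squarefree m.natAbs
  have hε : m.sign = 1 ∨ m.sign = -1 := by
    rcases lt_trichotomy m 0 with h | h | h
    · right; exact Int.sign_eq_neg_one_of_neg h
    · exact absurd h hm0
    · left; exact Int.sign_eq_one_of_pos h
  have hb : b ≠ 0 := by
    rintro rfl
    apply hm0
    simpa using hab.symm
  have hmm : m = m.sign * (a : ℤ) * (b : ℤ) ^ 2 := by
    have := Int.sign_mul_natAbs m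
    rw [← hab] at this
    push_cast at this
    rw [mul_assoc, mul_comm (a : ℤ)]
    exact this.symm
  have hne : m.sign * (a : ℤ) ≠ 1 := by
    intro h
    rw [h] at hmm
    exact hm ⟨b, by rw [hmm]; ring⟩
  obtain ⟨n, h1, h2, h3⟩ := exists_aux a hsq m.sign hε hne (N * b) (Nat.mul_ne_zero hN hb)
  refine ⟨n, h1, Nat.Coprime.coprime_mul_right_right h2, ?_⟩
  have hnb : n.Coprime b := Nat.Coprime.coprime_mul_left_right h2
  rw [hmm, jacobiSym.mul_left, h3, jacobiSym.sq_one']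
  · norm_num
  · rw [Int.gcd_natCast_natCast]
    exact hnb.symm

theorem padic_nonsquare (ℓ : ℕ) [Fact ℓ.Prime] (m : ℤ) (h : J(m | ℓ) = -1) :
    ¬ IsSquare (m : ℚ_[ℓ]) := by
  rintro ⟨x, hx⟩
  have h1 : ‖x‖ ≤ 1 := by
    by_contra hlt
    push Not at hlt
    have h2 : ‖(m : ℚ_[ℓ])‖ = ‖x‖ * ‖x‖ := by rw [hx, norm_mul]
    have h3 : ‖(m : ℚ_[ℓ])‖ ≤ 1 := Padic.norm_int_le_one m
    nlinarith
  let y : ℤ_[ℓ] := ⟨x, h1⟩
  have h2 : (m : ℤ_[ℓ]) = y * y := by
    apply Subtype.ext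
    push_cast
    exact hx
  rw [ZMod.nonsquare_iff_jacobiSym_eq_neg_one] at h
  apply h
  refine ⟨PadicInt.toZMod y, ?_⟩
  rw [← map_mul, ← h2, map_intCast]

theorem exists_prime_nonsquare (m : ℤ) (hm : ¬ IsSquare m) (N : ℕ) (hN : N ≠ 0) :
    ∃ (ℓ : ℕ) (_ : Fact ℓ.Prime), ¬ ℓ ∣ N ∧ ¬ IsSquare (m : ℚ_[ℓ]) := by
  obtain ⟨n, h1, h2, h3⟩ := exists_jacobi m hm N hN
  obtain ⟨ℓ, hℓ, hℓn, hℓm⟩ := jacobiSym.eq_neg_one_at_prime_divisor_of_eq_neg_one h3
  have hF : Fact ℓ.Prime := ⟨hℓ⟩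
  refine ⟨ℓ, hF, fun h => ?_, padic_nonsquare ℓ m hℓm⟩
  exact hℓ.one_lt.ne' (Nat.dvd_one.1 (h2 ▸ Nat.dvd_gcd hℓn h))

section cocycle

variable {P : Type*} [Group P] {F : Type*} [Field F] {c : P → P → ℤ}

theorem Splits.isSquare (h : Splits F c) (h1 : c 1 1 = 1) {s : P} (hs : s * s = 1) :
    IsSquare (c s s : F) := by
  obtain ⟨a, ha, hac⟩ := h
  have h2 : a 1 = 1 := by
    have := hac 1 1
    rw [h1, mul_one, Int.cast_one, one_mul] at this
    exact (mul_eq_left₀ (ha 1)).1 this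
  refine ⟨a s, ?_⟩
  rw [hac s s, hs, h2, mul_one]

theorem Splits.comm [CharZero F] (h : Splits F c) {s t : P} (hs : s * t = t * s) :
    c s t = c t s := by
  obtain ⟨a, ha, hac⟩ := h
  have h1 := hac s t
  have h2 := hac t s
  rw [mul_comm (a s), h2, hs] at h1
  have h3 := mul_right_cancel₀ (ha _) h1
  exact_mod_cast h3.symm

theorem NonSplit.twoPrimes (h : NonSplit c) (h1 : c 1 1 = 1) : TwoPrimes c := by
  rcases h with ⟨s, hs, hm⟩ | ⟨s, t, hst, hm⟩ | h
  · obtain ⟨ℓ₁, F₁, _, h₁⟩ := exists_prime_nonsquare (c s s) hm 1 one_ne_zero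
    obtain ⟨ℓ₂, F₂, h12, h₂⟩ := exists_prime_nonsquare (c s s) hm ℓ₁ F₁.out.ne_zero
    refine ⟨ℓ₁, ℓ₂, F₁, F₂, ?_, fun h => h₁ (h.isSquare h1 hs), fun h => h₂ (h.isSquare h1 hs)⟩
    rintro rfl
    exact h12 dvd_rfl
  · exact ⟨2, 3, ⟨Nat.prime_two⟩, ⟨Nat.prime_three⟩, by norm_num, fun h => hm (h.comm hst),
      fun h => hm (h.comm hst)⟩
  · exact h

end cocycle

end Pool.Agent.H.MP_ac3185_nt
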