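import Mathlib

/-! The `ℓ`-adic Tate module of an abelian group. -/

set_option autoImplicit false

open scoped TensorProduct

namespace Pool.Agent.H.MP_ac3185_nt

section Tate

variable (ℓ : ℕ) (M : Type*) [AddCommGroup M]

/-- The subgroup of sequences `x` in `M` with `x 0 = 0` and `ℓ x_{n+1} = x_n`; then `x_n` lies in
`M[ℓ ^ n]`. -/
def tateSeq : AddSubgroup (ℕ → M) where
  carrier := {x | x 0 = 0 ∧ ∀ n, ℓ • x (n + 1) = x n}
  zero_mem' := ⟨rfl, fun n => by simp⟩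
  add_mem' := by
    rintro a b ⟨ha, ha'⟩ ⟨hb, hb'⟩
    refine ⟨by simp [ha, hb], fun n => ?_⟩
    simp only [Pi.add_apply, smul_add, ha' n, hb' n]
  neg_mem' := by
    rintro a ⟨ha, ha'⟩
    refine ⟨by simp [ha], fun n => ?_⟩
    simp only [Pi.neg_apply, smul_neg, ha' n]

/-- The `ℓ`-adic Tate module `T_ℓ M` of an abelian group `M`: the sequences `x` in `M` with
`x 0 = 0` and `ℓ x_{n+1} = x_n`. -/
def Tate : Type _ := tateSeq ℓ M

instance Tate.addCommGroup : AddCommGroup (Tate ℓ M) := (tateSeq ℓ M).toAddCommGroup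

variable {ℓ M}

@[ext] theorem Tate.ext {x y : Tate ℓ M} (h : ∀ n, x.1 n = y.1 n) : x = y :=
  Subtype.ext (funext h)

theorem Tate.add_val (x y : Tate ℓ M) (n : ℕ) : (x + y).1 n = x.1 n + y.1 n := rfl

theorem Tate.zero_val (n : ℕ) : (0 : Tate ℓ M).1 n = 0 := rfl

theorem Tate.torsion (x : Tate ℓ M) (n : ℕ) : ℓ ^ n • x.1 n = 0 := by
  induction n with
  | zero => simpa using x.2.1
  | succ n ih => rw [pow_succ, mul_smul, x.2.2 n, ih]

theorem Tate.smul_congr (x : Tate ℓ M) {n a b : ℕ} (h : (a : ZMod (ℓ ^ n)) = b) :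
    a • x.1 n = b • x.1 n := by
  have h1 : a ≡ b [MOD ℓ ^ n] := (ZMod.natCast_eq_natCast_iff _ _ _).1 h
  have key : ∀ m k : ℕ, (m + ℓ ^ n * k) • x.1 n = m • x.1 n := by
    intro m k
    rw [add_smul, mul_comm, mul_smul, Tate.torsion, smul_zero, add_zero]
  rcases le_total a b with hab | hab
  · obtain ⟨k, hk⟩ := (Nat.modEq_iff_dvd' hab).1 h1
    have : b = a + ℓ ^ n * k := by omega
    rw [this, key]
  · obtain ⟨k, hk⟩ := (Nat.modEq_iff_dvd' hab).1 h1.symm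
    have : a = b + ℓ ^ n * k := by omega
    rw [this, key]

variable [Fact ℓ.Prime]

theorem Tate.smul_mem (a : ℤ_[ℓ]) (x : Tate ℓ M) :
    (fun n => a.appr n • x.1 n) ∈ tateSeq ℓ M := by
  refine ⟨by simp [x.2.1], fun n => ?_⟩
  have h1 : ℓ • (a.appr (n + 1) • x.1 (n + 1)) = a.appr (n + 1) • x.1 n := by
    rw [smul_comm, x.2.2 n]
  show ℓ • (a.appr (n + 1) • x.1 (n + 1)) = a.appr n • x.1 n
  rw [h1]
  refine Tate.smul_congr x ?_
  refine PadicInt.zmod_congr_of_sub_mem_span n a _ _ ?_ (PadicInt.appr_spec n a)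
  have h2 := PadicInt.appr_spec (n + 1) a
  rw [Ideal.mem_span_singleton] at h2 ⊢
  exact (pow_dvd_pow _ (Nat.le_succ n)).trans h2

/-- An `ℓ`-adic integer `a` acts on `x_n` as any integer congruent to `a` modulo `ℓ ^ n`. -/
noncomputable instance Tate.smulInst : SMul ℤ_[ℓ] (Tate ℓ M) where
  smul a x := Subtype.mk (fun n => a.appr n • x.1 n) (Tate.smul_mem a x)

theorem Tate.smul_val (a : ℤ_[ℓ]) (x : Tate ℓ M) (n : ℕ) : (a • x).1 n = a.appr n • x.1 n := rfl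

theorem Tate.smul_val_of (a : ℤ_[ℓ]) (x : Tate ℓ M) (n m : ℕ)
    (h : a - (m : ℤ_[ℓ]) ∈ Ideal.span {(ℓ : ℤ_[ℓ]) ^ n}) : (a • x).1 n = m • x.1 n := by
  rw [Tate.smul_val]
  exact Tate.smul_congr x (PadicInt.zmod_congr_of_sub_mem_span n a _ _ (PadicInt.appr_spec n a) h)

theorem Tate.one_smul' (x : Tate ℓ M) : (1 : ℤ_[ℓ]) • x = x := by
  ext n
  rw [Tate.smul_val_of 1 x n 1 (by simp), one_smul]

theorem Tate.mul_smul' (a b : ℤ_[ℓ]) (x : Tate ℓ M) : (a * b) • x = a • b • x := by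
  ext n
  rw [Tate.smul_val_of (a * b) x n (a.appr n * b.appr n), Tate.smul_val a (b • x) n,
    Tate.smul_val b x n, mul_smul]
  have ha := PadicInt.appr_spec n a
  have hb := PadicInt.appr_spec n b
  push_cast
  have : a * b - (a.appr n : ℤ_[ℓ]) * (b.appr n : ℤ_[ℓ]) =
      a * (b - b.appr n) + (a - a.appr n) * b.appr n := by ring
  rw [this]
  exact Ideal.add_mem _ (Ideal.mul_mem_left _ _ hb) (Ideal.mul_mem_right _ _ ha)

theorem Tate.smul_zero' (a : ℤ_[ℓ]) : a • (0 : Tate ℓ M) = 0 := by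
  ext n
  rw [Tate.smul_val, Tate.zero_val, smul_zero]

theorem Tate.smul_add' (a : ℤ_[ℓ]) (x y : Tate ℓ M) : a • (x + y) = a • x + a • y := by
  ext n
  rw [Tate.smul_val, Tate.add_val, Tate.add_val, Tate.smul_val, Tate.smul_val, smul_add]

theorem Tate.add_smul' (a b : ℤ_[ℓ]) (x : Tate ℓ M) : (a + b) • x = a • x + b • x := by
  ext n
  rw [Tate.smul_val_of (a + b) x n (a.appr n + b.appr n)]
  · rw [Tate.add_val, Tate.smul_val, Tate.smul_val, add_smul]
  · have ha := PadicInt.appr_spec n a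
    have hb := PadicInt.appr_spec n b
    push_cast
    have : a + b - ((a.appr n : ℤ_[ℓ]) + (b.appr n : ℤ_[ℓ])) =
        (a - a.appr n) + (b - b.appr n) := by ring
    rw [this]
    exact Ideal.add_mem _ ha hb

theorem Tate.zero_smul' (x : Tate ℓ M) : (0 : ℤ_[ℓ]) • x = 0 := by
  ext n
  rw [Tate.smul_val_of 0 x n 0 (by simp), zero_smul, Tate.zero_val]

noncomputable instance Tate.moduleInst : Module ℤ_[ℓ] (Tate ℓ M) where
  one_smul := Tate.one_smul'
  mul_smul := Tate.mul_smul'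
  smul_zero := Tate.smul_zero'
  smul_add := Tate.smul_add'
  add_smul := Tate.add_smul'
  zero_smul := Tate.zero_smul'

omit [Fact ℓ.Prime] in
theorem Tate.map_mem {N : Type*} [AddCommGroup N] (f : M →+ N) (x : Tate ℓ M) :
    (fun n => f (x.1 n)) ∈ tateSeq ℓ N := by
  refine ⟨by simp [x.2.1], fun n => ?_⟩
  show ℓ • f (x.1 (n + 1)) = f (x.1 n)
  rw [← map_nsmul, x.2.2 n]

/-- the map of sequences given by a homomorphism -/
def Tate.fn {N : Type*} [AddCommGroup N] (f : M →+ N) (x : Tate ℓ M) : Tate ℓ N :=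
  Subtype.mk (fun n => f (x.1 n)) (Tate.map_mem f x)

theorem Tate.fn_add {N : Type*} [AddCommGroup N] (f : M →+ N) (x y : Tate ℓ M) :
    Tate.fn f (x + y) = Tate.fn f x + Tate.fn f y := by
  ext n
  exact map_add f _ _

theorem Tate.fn_smul {N : Type*} [AddCommGroup N] (f : M →+ N) (a : ℤ_[ℓ]) (x : Tate ℓ M) :
    Tate.fn f (a • x) = a • Tate.fn f x := by
  ext n
  exact map_nsmul f _ _

/-- The homomorphism of Tate modules `(x_n) ↦ (f(x_n))` given by a homomorphism `f`. -/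
noncomputable def Tate.map {N : Type*} [AddCommGroup N] (f : M →+ N) :
    Tate ℓ M →ₗ[ℤ_[ℓ]] Tate ℓ N where
  toFun := Tate.fn f
  map_add' := Tate.fn_add f
  map_smul' := Tate.fn_smul f

theorem Tate.map_comp {N Q : Type*} [AddCommGroup N] [AddCommGroup Q] (f : M →+ N) (g : N →+ Q) :
    Tate.map (ℓ := ℓ) (g.comp f) = (Tate.map g).comp (Tate.map f) := rfl

/-- the map of tensor products given by a homomorphism -/
noncomputable def rawMap {N : Type*} [AddCommGroup N] (f : M →+ N) :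
    (ℚ_[ℓ] ⊗[ℤ_[ℓ]] Tate ℓ M) →ₗ[ℚ_[ℓ]] (ℚ_[ℓ] ⊗[ℤ_[ℓ]] Tate ℓ N) :=
  (Tate.map f).baseChange ℚ_[ℓ]

theorem rawMap_comp {N Q : Type*} [AddCommGroup N] [AddCommGroup Q] (f : M →+ N)
    (g : N →+ Q) : rawMap (ℓ := ℓ) (g.comp f) = (rawMap g).comp (rawMap f) := by
  unfold rawMap
  rw [Tate.map_comp, LinearMap.baseChange_comp]

theorem rawMap_id : rawMap (ℓ := ℓ) (AddMonoidHom.id M) = LinearMap.id := by
  unfold rawMap
  have : Tate.map (ℓ := ℓ) (AddMonoidHom.id M) = LinearMap.id := rfl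
  rw [this, LinearMap.baseChange_id]

theorem rawMap_zsmul {N : Type*} [AddCommGroup N] (f : M →+ N) (c : ℤ) :
    rawMap (ℓ := ℓ) (c • f) = (c : ℚ_[ℓ]) • rawMap f := by
  unfold rawMap
  have h : Tate.map (ℓ := ℓ) (c • f) = c • Tate.map (ℓ := ℓ) f := by
    ext x n
    rfl
  rw [h]
  have h2 : (c • Tate.map (ℓ := ℓ) f) = (c : ℤ_[ℓ]) • Tate.map (ℓ := ℓ) f := by
    rw [Int.cast_smul_eq_zsmul]
  rw [h2, LinearMap.baseChange_smul, ← algebraMap_smul ℚ_[ℓ] (c : ℤ_[ℓ]), map_intCast]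

/-- The rational Tate module `V_ℓ M = ℚ_ℓ ⊗ T_ℓ M`. -/
def VTate (ℓ : ℕ) [Fact ℓ.Prime] (M : Type*) [AddCommGroup M] : Type _ :=
  ℚ_[ℓ] ⊗[ℤ_[ℓ]] Tate ℓ M

noncomputable instance VTate.addCommGroup (ℓ : ℕ) [Fact ℓ.Prime] (M : Type*) [AddCommGroup M] :
    AddCommGroup (VTate ℓ M) := TensorProduct.addCommGroup (M := ℚ_[ℓ]) (N := Tate ℓ M)

noncomputable instance VTate.module (ℓ : ℕ) [Fact ℓ.Prime] (M : Type*) [AddCommGroup M] :
    Module ℚ_[ℓ] (VTate ℓ M) := TensorProduct.leftModule (M := ℚ_[ℓ]) (N := Tate ℓ M)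

/-- The map of rational Tate modules given by a homomorphism. -/
noncomputable def VTate.map {N : Type*} [AddCommGroup N] (f : M →+ N) :
    VTate ℓ M →ₗ[ℚ_[ℓ]] VTate ℓ N := rawMap f

theorem VTate.map_apply {N : Type*} [AddCommGroup N] (f : M →+ N) (x : VTate ℓ M) :
    VTate.map (ℓ := ℓ) f x = rawMap f x := rfl

theorem VTate.map_comp {N Q : Type*} [AddCommGroup N] [AddCommGroup Q] (f : M →+ N)
    (g : N →+ Q) : VTate.map (ℓ := ℓ) (g.comp f) = (VTate.map g).comp (VTate.map f) := by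
  refine LinearMap.ext fun x => ?_
  have := congrArg (fun F => F x) (rawMap_comp (ℓ := ℓ) f g)
  exact this

theorem VTate.map_id : VTate.map (ℓ := ℓ) (AddMonoidHom.id M) = LinearMap.id := by
  refine LinearMap.ext fun x => ?_
  have := congrArg (fun F => F x) (rawMap_id (ℓ := ℓ) (M := M))
  exact this

theorem VTate.map_zsmul {N : Type*} [AddCommGroup N] (f : M →+ N) (c : ℤ) :
    VTate.map (ℓ := ℓ) (c • f) = (c : ℚ_[ℓ]) • VTate.map f := by
  refine LinearMap.ext fun x => ?_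
  have := congrArg (fun F => F x) (rawMap_zsmul (ℓ := ℓ) f c)
  exact this

end Tate

end Pool.Agent.H.MP_ac3185_nt
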